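import Pool.Agent.N218.RZ.Defs

/-!
# Leaf AC: a quadratic inequality for continuous functions gives absolute continuity
-/

set_option autoImplicit false

open MeasureTheory Filter Topology

namespace Pool.Agent.N218.RZ

private lemma ac_integrable (μ : Measure T) [IsFiniteMeasure μ] (f : T → ℝ) (hf : Continuous f) :
    Integrable f μ :=
  hf.integrable_of_hasCompactSupport (HasCompactSupport.of_compactSpace f)

private lemma ac_bound (μ ν : Measure T) [IsFiniteMeasure μ] [IsFiniteMeasure ν] (C : ℝ)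
    (hC : 0 ≤ C) (h : ∀ f : C(T, ℝ), (∫ x, f x ∂μ) ^ 2 ≤ C * ∫ x, f x ^ 2 ∂ν)
    (F U : Set T) (hF : IsClosed F) (hU : IsOpen U) (hFU : F ⊆ U) :
    (μ.real F) ^ 2 ≤ C * ν.real U := by
  obtain ⟨f, hf0, hf1, hf01⟩ := exists_continuous_zero_one_of_isClosed
    (isClosed_compl_iff.mpr hU) hF (Set.disjoint_compl_left_iff_subset.mpr hFU)
  have h1 : μ.real F ≤ ∫ x, f x ∂μ := by
    have e1 : ∫ x, F.indicator (fun _ => (1 : ℝ)) x ∂μ = μ.real F := by
      rw [integral_indicator hF.measurableSet]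
      simp
    rw [← e1]
    refine integral_mono ?_ (ac_integrable μ _ f.continuous) ?_
    · exact (integrable_const (1 : ℝ)).indicator hF.measurableSet
    · intro x
      by_cases hx : x ∈ F
      · have := hf1 hx
        simp only [Set.indicator_of_mem hx]
        rw [this]
        exact le_refl _
      · simp only [Set.indicator_of_notMem hx]
        exact (hf01 x).1
  have h2 : ∫ x, f x ^ 2 ∂ν ≤ ν.real U := by
    have e1 : ∫ x, U.indicator (fun _ => (1 : ℝ)) x ∂ν = ν.real U := by
      rw [integral_indicator hU.measurableSet]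
      simp
    rw [← e1]
    refine integral_mono (ac_integrable ν _ (f.continuous.pow 2)) ?_ ?_
    · exact (integrable_const (1 : ℝ)).indicator hU.measurableSet
    · intro x
      by_cases hx : x ∈ U
      · simp only [Set.indicator_of_mem hx]
        have := hf01 x
        exact pow_le_one₀ this.1 this.2
      · simp only [Set.indicator_of_notMem hx]
        have : f x = 0 := hf0 hx
        rw [this]
        norm_num
  calc (μ.real F) ^ 2 ≤ (∫ x, f x ∂μ) ^ 2 :=
        pow_le_pow_left₀ measureReal_nonneg h1 2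
    _ ≤ C * ∫ x, f x ^ 2 ∂ν := h f
    _ ≤ C * ν.real U := mul_le_mul_of_nonneg_left h2 hC

private lemma ac_closed (μ ν : Measure T) [IsFiniteMeasure μ] [IsFiniteMeasure ν] (C : ℝ)
    (hC : 0 ≤ C) (h : ∀ f : C(T, ℝ), (∫ x, f x ∂μ) ^ 2 ≤ C * ∫ x, f x ^ 2 ∂ν)
    (F : Set T) (hF : IsClosed F) (hν : ν F = 0) : μ F = 0 := by
  have key : ∀ η : ℝ, 0 < η → (μ.real F) ^ 2 ≤ C * η := by
    intro η hη
    obtain ⟨U, hFU, hU, hlt⟩ := Set.exists_isOpen_lt_of_lt F (ENNReal.ofReal η)
      (by rw [hν]; exact ENNReal.ofReal_pos.mpr hη) (μ := ν)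
    refine (ac_bound μ ν C hC h F U hF hU hFU).trans ?_
    refine mul_le_mul_of_nonneg_left ?_ hC
    exact ENNReal.toReal_le_of_le_ofReal hη.le hlt.le
  have h0 : (μ.real F) ^ 2 ≤ 0 := by
    refine le_of_forall_pos_le_add ?_
    intro ε hε
    have := key (ε / (C + 1)) (by positivity)
    have h2 : C * (ε / (C + 1)) ≤ ε := by
      rw [mul_div_assoc', div_le_iff₀ (by positivity)]
      nlinarith
    linarith
  have h1 : μ.real F = 0 := by
    have := sq_nonneg (μ.real F)
    exact pow_eq_zero_iff (two_ne_zero) |>.mp (le_antisymm h0 this)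
  exact (measureReal_eq_zero_iff).mp h1

/-- Leaf AC. -/
theorem acR : S_AC := by
  intro μ ν hμ hν ⟨C, hC⟩
  have hC' : ∀ f : C(T, ℝ), (∫ x, f x ∂μ) ^ 2 ≤ (max C 0) * ∫ x, f x ^ 2 ∂ν := by
    intro f
    refine (hC f).trans (mul_le_mul_of_nonneg_right (le_max_left _ _) ?_)
    exact integral_nonneg fun x => sq_nonneg _
  refine Measure.AbsolutelyContinuous.mk fun A hA hA0 => ?_
  rw [hA.measure_eq_iSup_isClosed_of_ne_top (measure_ne_top μ A)]
  simp only [ENNReal.iSup_eq_zero]
  intro F hFA hF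
  exact ac_closed μ ν (max C 0) (le_max_right _ _) hC' F hF (measure_mono_null hFA hA0)

end Pool.Agent.N218.RZ
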