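import Pool.Agent.N218.RZ.Defs

set_option autoImplicit false

open MeasureTheory Filter Topology

namespace Pool.Agent.N218.RZ

lemma e_cont (j : ℤ) : Continuous (e j) := (fourier j).continuous

lemma e_add (i j : ℤ) (x : T) : e (i + j) x = e i x * e j x := fourier_add

lemma e_zero (x : T) : e 0 x = 1 := fourier_zero

lemma e_neg (j : ℤ) (x : T) : e (-j) x = (starRingEnd ℂ) (e j x) := fourier_neg

lemma e_norm (j : ℤ) (x : T) : ‖e j x‖ = 1 := by
  unfold e
  rw [fourier_apply]
  exact Circle.norm_coe _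

lemma e_mul (j L : ℤ) (x : T) : e (j * L) x = e j (L • x) := by
  unfold e
  rw [fourier_apply, fourier_apply, mul_smul]

lemma e_nsmul (j : ℤ) (L : ℕ) (x : T) : e j (L • x) = e (j * L) x := by
  rw [e_mul, natCast_zsmul]

lemma int_e {j : ℤ} (hj : j ≠ 0) : ∫ x, e j x ∂m = 0 := by
  unfold e m
  exact integral_eq_zero_of_add_right_eq_neg (μ := AddCircle.haarAddCircle)
    (fourier_add_half_inv_index hj factTwoPi.elim)

lemma re_nat (l : ℕ) (x : T) : (e (l : ℤ) x).re = cs (l • x) := by
  unfold cs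
  rw [e_nsmul]
  simp

lemma re_three (l : ℕ) (x : T) : (e ((3 * l : ℕ) : ℤ) x).re = cs3 (l • x) := by
  unfold cs3
  rw [e_nsmul]
  simp

lemma cs_cont : Continuous cs := Complex.continuous_re.comp (e_cont 1)
lemma cs3_cont : Continuous cs3 := Complex.continuous_re.comp (e_cont 3)
lemma yy_cont : Continuous yy := by
  unfold yy
  exact (continuous_const.sub cs_cont).div_const _
lemma blk_cont (s a c : ℝ) : Continuous (blk s a c) := by
  unfold blk
  exact (continuous_const.add (continuous_const.mul cs_cont)).mul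
    (continuous_const.add (continuous_const.mul cs3_cont))

lemma abs_cs (x : T) : |cs x| ≤ 1 := by
  unfold cs
  exact (Complex.abs_re_le_norm _).trans (e_norm 1 x).le
lemma abs_cs3 (x : T) : |cs3 x| ≤ 1 := by
  unfold cs3
  exact (Complex.abs_re_le_norm _).trans (e_norm 3 x).le

lemma factor_real (l : ℕ) (r s φ : ℝ) (h : Complex.exp (φ * Complex.I) = (s : ℂ)) (x : T) :
    factor l (r : ℂ) φ x = 1 + r * (s * (e (l : ℤ) x).re) := by
  unfold factor
  rw [h]
  simp

/-- partial products over complete blocks -/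
lemma partial_blk {a : ℕ → ℂ} {φ : ℕ → ℝ} {s : ℝ} {α γ : ℕ → ℝ}
    (h0 : ∀ k, a (2 * k) = ((α k : ℝ) : ℂ)) (h1 : ∀ k, a (2 * k + 1) = ((γ k : ℝ) : ℂ))
    (p0 : ∀ k, φ (2 * k) = 0) (p1 : ∀ k, Complex.exp (φ (2 * k + 1) * Complex.I) = (s : ℂ))
    (K : ℕ) (x : T) :
    partialProd lam a φ (2 * K) x = ∏ k ∈ Finset.range K, blk s (α k) (γ k) (LL k • x) := by
  unfold partialProd
  induction K with
  | zero => simp
  | succ K ih =>
    rw [show 2 * (K + 1) = 2 * K + 1 + 1 by ring, Finset.prod_range_succ, Finset.prod_range_succ,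
      Finset.prod_range_succ, ih, mul_assoc]
    congr 1
    have e0 : lam (2 * K) = LL K := by simp [lam]
    have e1 : lam (2 * K + 1) = 3 * LL K := by
      unfold lam
      rw [if_neg (by omega), show (2 * K + 1) / 2 = K by omega]
    rw [h0, h1, e0, e1, factor_real (LL K) (α K) 1 (φ (2 * K)) (by rw [p0]; simp),
      factor_real (3 * LL K) (γ K) s _ (p1 K), re_nat, re_three]
    unfold blk
    ring

lemma cs_cs3 (x : T) : cs x * cs3 x = ((e 2 x).re + (e 4 x).re) / 2 := by
  have h2 : e 2 x = (starRingEnd ℂ) (e 1 x) * e 3 x := by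
    rw [← e_neg, ← e_add]; norm_num
  have h4 : e 4 x = e 1 x * e 3 x := by rw [← e_add]; norm_num
  unfold cs cs3
  rw [h2, h4]
  simp only [Complex.mul_re, Complex.conj_re, Complex.conj_im]
  ring

lemma int_re {j : ℤ} (hj : j ≠ 0) : ∫ x, (e j x).re ∂m = 0 := by
  have h := int_e hj
  have hi : Integrable (e j) m := (e_cont j).integrable_of_hasCompactSupport
    (HasCompactSupport.of_compactSpace _)
  have h2 := integral_re (𝕜 := ℂ) hi
  simp only [RCLike.re_to_complex] at h2
  rw [h2, h]
  simp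

lemma cint {f : T → ℝ} (hf : Continuous f) : Integrable f m :=
  hf.integrable_of_hasCompactSupport (HasCompactSupport.of_compactSpace _)

lemma int_blk (s a c : ℝ) : ∫ x, blk s a c x ∂m = 1 := by
  have hr : ∀ j : ℤ, Continuous (fun x => (e j x).re) := fun j =>
    Complex.continuous_re.comp (e_cont j)
  have h1 : ∫ x, cs x ∂m = 0 := int_re (by norm_num)
  have h3 : ∫ x, cs3 x ∂m = 0 := int_re (by norm_num)
  have h : ∀ x, blk s a c x = 1 + a * cs x + s * c * cs3 x + a * (s * c) / 2 * (e 2 x).re +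
      a * (s * c) / 2 * (e 4 x).re := by
    intro x
    have := cs_cs3 x
    unfold blk
    linear_combination a * (s * c) * this
  simp_rw [h]
  rw [integral_add, integral_add, integral_add, integral_add, integral_const_mul,
    integral_const_mul, integral_const_mul, integral_const_mul, h1, h3,
    int_re (by norm_num : (2:ℤ) ≠ 0), int_re (by norm_num : (4:ℤ) ≠ 0)]
  · simp
  · exact cint continuous_const
  · exact cint (continuous_const.mul cs_cont)
  · exact cint (continuous_const.add (continuous_const.mul cs_cont))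
  · exact cint (continuous_const.mul cs3_cont)
  · exact cint ((continuous_const.add (continuous_const.mul cs_cont)).add
      (continuous_const.mul cs3_cont))
  · exact cint (continuous_const.mul (hr 2))
  · exact cint (((continuous_const.add (continuous_const.mul cs_cont)).add
      (continuous_const.mul cs3_cont)).add (continuous_const.mul (hr 2)))
  · exact cint (continuous_const.mul (hr 4))

lemma dd_pos (k : ℕ) : 64 ≤ dd k := by
  unfold dd
  calc 64 = 64 ^ 1 := by norm_num
    _ ≤ 64 ^ (Nat.log 1024 k + 1) := Nat.pow_le_pow_right (by norm_num) (by omega)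

lemma LL_pos (k : ℕ) : 0 < LL k := by
  induction k with
  | zero => simp [LL]
  | succ k ih => simp only [LL]; positivity

lemma LL_sum (M : ℕ) : ∑ k ∈ Finset.range M, (2 * dd k + 4) * LL k < LL M := by
  induction M with
  | zero => simp [LL]
  | succ M ih =>
    rw [Finset.sum_range_succ]
    simp only [LL]
    nlinarith

/-- real form of FACT -/
lemma factR' (hF : S_FACT) {q : ℕ → T → ℝ}
    (hq : ∀ k, (fun x => ((q k x : ℝ) : ℂ)) ∈ TP (2 * dd k + 4)) (M : ℕ) :
    ∫ x, ∏ k ∈ Finset.range M, q k (LL k • x) ∂m = ∏ k ∈ Finset.range M, ∫ x, q k x ∂m := by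
  have h := hF (fun k => 2 * dd k + 4) LL (fun k x => ((q k x : ℝ) : ℂ)) hq LL_sum M
  have h2 : (∫ x, ∏ k ∈ Finset.range M, ((q k (LL k • x) : ℝ) : ℂ) ∂m) =
      ((∫ x, ∏ k ∈ Finset.range M, q k (LL k • x) ∂m : ℝ) : ℂ) := by
    have := integral_complex_ofReal (μ := m) (f := fun x : T => ∏ k ∈ Finset.range M, q k (LL k • x))
    rw [← this]
    congr 1
    ext x
    push_cast
    rfl
  have h3 : (∏ k ∈ Finset.range M, ∫ x, ((q k x : ℝ) : ℂ) ∂m) =
      ((∏ k ∈ Finset.range M, ∫ x, q k x ∂m : ℝ) : ℂ) := by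
    push_cast
    refine Finset.prod_congr rfl fun k _ => ?_
    exact integral_complex_ofReal
  have h4 := h2.symm.trans (h.trans h3)
  exact_mod_cast h4

/-- the integral of a product of block functions with respect to the Riesz product -/
lemma gform (hT : S_TPM) (hF : S_FACT) {a : ℕ → ℂ} {φ : ℕ → ℝ} {s : ℝ} {α γ : ℕ → ℝ}
    (h0 : ∀ k, a (2 * k) = ((α k : ℝ) : ℂ)) (h1 : ∀ k, a (2 * k + 1) = ((γ k : ℝ) : ℂ))
    (p0 : ∀ k, φ (2 * k) = 0) (p1 : ∀ k, Complex.exp (φ (2 * k + 1) * Complex.I) = (s : ℂ))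
    {μ : Measure T} (hμ : IsRiesz lam a φ μ) (w : ℕ → T → ℝ) (hw : ∀ i, Continuous (w i))
    (hwt : ∀ i, (fun x => ((w i x * blk s (α i) (γ i) x : ℝ) : ℂ)) ∈ TP (2 * dd i + 4)) (K : ℕ) :
    ∫ x, ∏ i ∈ Finset.range K, w i (LL i • x) ∂μ =
      ∏ i ∈ Finset.range K, ∫ x, w i x * blk s (α i) (γ i) x ∂m := by
  have hc : Continuous (fun x : T => ∏ i ∈ Finset.range K, w i (LL i • x)) :=
    continuous_finsetProd _ fun i _ => (hw i).comp (continuous_const_smul _)
  have ht := hμ.2 ⟨_, hc⟩
  have ht2 : Tendsto (fun N => ∫ x, (∏ i ∈ Finset.range K, w i (LL i • x)) *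
      partialProd lam a φ (2 * N) x ∂m) atTop
      (𝓝 (∫ x, ∏ i ∈ Finset.range K, w i (LL i • x) ∂μ)) :=
    ht.comp (tendsto_id.const_mul_atTop' (by norm_num : (0:ℕ) < 2))
  refine tendsto_nhds_unique ht2 (tendsto_const_nhds.congr' ?_)
  filter_upwards [eventually_ge_atTop K] with M hM
  have hq : ∀ k, (fun x => (((if k < K then w k x else 1) * blk s (α k) (γ k) x : ℝ) : ℂ)) ∈
      TP (2 * dd k + 4) := by
    intro k
    split_ifs with hk
    · exact hwt k
    · obtain ⟨t1, t2, t3, t4, t5, t6, t7⟩ := hT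
      have hb : (fun x => ((blk s (α k) (γ k) x : ℝ) : ℂ)) ∈ TP (1 + 3) := by
        have u1 : (fun x => (1 : ℂ) + ((α k : ℝ) : ℂ) * ((cs x : ℝ) : ℂ)) ∈ TP 1 := by
          have := Submodule.add_mem _ (t1 0 1 (by norm_num) (t3 1))
            (Submodule.smul_mem (TP 1) ((α k : ℝ) : ℂ) t5)
          exact this
        have u2 : (fun x => (1 : ℂ) + ((s * γ k : ℝ) : ℂ) * ((cs3 x : ℝ) : ℂ)) ∈ TP 3 := by
          have := Submodule.add_mem _ (t1 0 3 (by norm_num) (t3 1))
            (Submodule.smul_mem (TP 3) ((s * γ k : ℝ) : ℂ) t6)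
          exact this
        have := t2 1 3 _ _ u1 u2
        convert this using 2
        unfold blk
        push_cast
        ring
      have := t1 4 (2 * dd k + 4) (by omega) hb
      convert this using 2
      simp
  have hfac := factR' hF (q := fun k x => (if k < K then w k x else 1) * blk s (α k) (γ k) x)
    hq M
  have e1 : ∏ k ∈ Finset.range M, ∫ x, (if k < K then w k x else 1) * blk s (α k) (γ k) x ∂m =
      ∏ i ∈ Finset.range K, ∫ x, w i x * blk s (α i) (γ i) x ∂m := by
    rw [← Finset.prod_range_mul_prod_Ico _ hM]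
    have z1 : ∏ k ∈ Finset.range K, ∫ x, (if k < K then w k x else 1) * blk s (α k) (γ k) x ∂m =
        ∏ i ∈ Finset.range K, ∫ x, w i x * blk s (α i) (γ i) x ∂m :=
      Finset.prod_congr rfl fun i hi => by simp only [if_pos (Finset.mem_range.1 hi)]
    have z2 : ∏ k ∈ Finset.Ico K M, ∫ x, (if k < K then w k x else 1) * blk s (α k) (γ k) x ∂m =
        1 := by
      refine Finset.prod_eq_one fun i hi => ?_
      have : ¬ i < K := by simp at hi; omega
      simp only [if_neg this, one_mul]
      exact int_blk _ _ _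
    rw [z1, z2, mul_one]
  rw [← e1, ← hfac]
  congr 1
  ext x
  rw [partial_blk h0 h1 p0 p1, Finset.prod_mul_distrib]
  congr 1
  rw [← Finset.prod_range_mul_prod_Ico _ hM]
  have z1 : ∏ k ∈ Finset.range K, (if k < K then w k (LL k • x) else 1) =
      ∏ i ∈ Finset.range K, w i (LL i • x) :=
    Finset.prod_congr rfl fun i hi => by simp only [if_pos (Finset.mem_range.1 hi)]
  have z2 : ∏ k ∈ Finset.Ico K M, (if k < K then w k (LL k • x) else 1) = 1 := by
    refine Finset.prod_eq_one fun i hi => ?_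
    have : ¬ i < K := by simp at hi; omega
    simp only [if_neg this]
  rw [z1, z2, mul_one]

end Pool.Agent.N218.RZ
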