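import Pool.Agent.N218.RZ.Asm1

set_option autoImplicit false

open MeasureTheory Filter Topology

namespace Pool.Agent.N218.RZ

lemma blk_pos {s a c : ℝ} (hs : |s| ≤ 1) (ha : |a| < 1) (hc : |c| < 1) (x : T) :
    0 < blk s a c x := by
  unfold blk
  have h1 := abs_cs x
  have h3 := abs_cs3 x
  have e1 : |a * cs x| < 1 := by
    rw [abs_mul]
    calc |a| * |cs x| ≤ |a| * 1 := mul_le_mul_of_nonneg_left h1 (abs_nonneg _)
      _ < 1 := by linarith
  have e3 : |s * c * cs3 x| < 1 := by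
    rw [abs_mul, abs_mul]
    calc |s| * |c| * |cs3 x| ≤ |s| * |c| * 1 := mul_le_mul_of_nonneg_left h3 (by positivity)
      _ ≤ 1 * |c| * 1 := by gcongr
      _ < 1 := by linarith
  have := (abs_lt.1 e1).1
  have := (abs_lt.1 e3).1
  apply mul_pos <;> linarith

lemma blk_TP (hT : S_TPM) (s a c : ℝ) : (fun x => ((blk s a c x : ℝ) : ℂ)) ∈ TP 4 := by
  obtain ⟨t1, t2, t3, t4, t5, t6, t7⟩ := hT
  have u1 : (fun x => (1 : ℂ) + ((a : ℝ) : ℂ) * ((cs x : ℝ) : ℂ)) ∈ TP 1 := by
    have := Submodule.add_mem _ (t1 0 1 (by norm_num) (t3 1))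
      (Submodule.smul_mem (TP 1) ((a : ℝ) : ℂ) t5)
    exact this
  have u2 : (fun x => (1 : ℂ) + ((s * c : ℝ) : ℂ) * ((cs3 x : ℝ) : ℂ)) ∈ TP 3 := by
    have := Submodule.add_mem _ (t1 0 3 (by norm_num) (t3 1))
      (Submodule.smul_mem (TP 3) ((s * c : ℝ) : ℂ) t6)
    exact this
  have := t2 1 3 _ _ u1 u2
  convert this using 2
  unfold blk
  push_cast
  ring

/-- the majorant of `F ^ 2 / G` -/
noncomputable def maj (a b c : ℝ) (x : T) : ℝ :=
  blk 1 b c x + 2 * (blk 1 a c x - blk 1 b c x) + 18 * (a - b) ^ 2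

lemma maj_TP (hT : S_TPM) (a b c : ℝ) : (fun x => ((maj a b c x : ℝ) : ℂ)) ∈ TP 4 := by
  have hT' := hT
  obtain ⟨t1, t2, t3, t4, t5, t6, t7⟩ := hT
  have h := Submodule.add_mem _ (Submodule.add_mem _ (blk_TP hT' 1 b c)
    (Submodule.smul_mem (TP 4) (2 : ℂ)
      (Submodule.sub_mem _ (blk_TP hT' 1 a c) (blk_TP hT' 1 b c))))
    (t1 0 4 (by norm_num) (t3 ((18 * (a - b) ^ 2 : ℝ) : ℂ)))
  convert h using 1
  ext x
  unfold maj
  simp only [Pi.add_apply, Pi.smul_apply, Pi.sub_apply, smul_eq_mul]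
  push_cast
  ring

lemma int_maj (a b c : ℝ) : ∫ x, maj a b c x ∂m = 1 + 18 * (a - b) ^ 2 := by
  unfold maj
  have i1 : Integrable (fun x => blk 1 a c x) m := cint (blk_cont 1 a c)
  have i2 : Integrable (fun x => blk 1 b c x) m := cint (blk_cont 1 b c)
  have i3 : Integrable (fun x => 2 * (blk 1 a c x - blk 1 b c x)) m := (i1.sub i2).const_mul 2
  have i4 : Integrable (fun x => blk 1 b c x + 2 * (blk 1 a c x - blk 1 b c x)) m := i2.add i3
  rw [integral_add i4 (integrable_const _), integral_add i2 i3, integral_const_mul,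
    integral_sub i1 i2, int_blk, int_blk]
  simp

/-- absolute continuity in the aligned case -/
theorem ac_aligned (hT : S_TPM) (hF : S_FACT) (hAC : S_AC) (hAL : S_ALI)
    {a b : ℕ → ℂ} {φ : ℕ → ℝ} {α β γ : ℕ → ℝ}
    (a0 : ∀ k, a (2 * k) = ((α k : ℝ) : ℂ)) (a1 : ∀ k, a (2 * k + 1) = ((γ k : ℝ) : ℂ))
    (b0 : ∀ k, b (2 * k) = ((β k : ℝ) : ℂ)) (b1 : ∀ k, b (2 * k + 1) = ((γ k : ℝ) : ℂ))
    (p0 : ∀ k, φ (2 * k) = 0)
    (p1 : ∀ k, Complex.exp (φ (2 * k + 1) * Complex.I) = ((1 : ℝ) : ℂ))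
    (hβ : ∀ k, 1 / 2 ≤ β k) (hβγ : ∀ k, β k ≤ γ k) (hγ : ∀ k, γ k < 1)
    {C : ℝ} (hC : ∀ K, ∑ k ∈ Finset.range K, (α k - β k) ^ 2 ≤ C)
    {μ ν : Measure T} (hμ : IsRiesz lam a φ μ) (hν : IsRiesz lam b φ ν) : μ ≪ ν := by
  have hγ' : ∀ k, |γ k| < 1 := fun k => abs_lt.2 ⟨by linarith [hβ k, hβγ k], hγ k⟩
  have hβ' : ∀ k, |β k| < 1 := fun k => abs_lt.2 ⟨by linarith [hβ k], by linarith [hβγ k, hγ k]⟩
  have hone : |(1:ℝ)| ≤ 1 := by simp
  refine hAC μ ν hμ.1 hν.1 ⟨Real.exp (18 * C), fun f => ?_⟩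
  have key : ∀ (f : C(T, ℝ)) (t : ℝ), 0 < t →
      2 * (∫ x, f x ∂μ) ≤ t * (∫ x, f x ^ 2 ∂ν) + t⁻¹ * Real.exp (18 * C) := by
    intro f t ht
    have l1 : Tendsto (fun N => 2 * ∫ x, f x * partialProd lam a φ (2 * N) x ∂m) atTop
        (𝓝 (2 * ∫ x, f x ∂μ)) :=
      ((hμ.2 f).comp (tendsto_id.const_mul_atTop' (by norm_num : (0:ℕ) < 2))).const_mul 2
    have l2 : Tendsto (fun N => t * (∫ x, (f ^ 2 : C(T, ℝ)) x * partialProd lam b φ (2 * N) x ∂m) +
        t⁻¹ * Real.exp (18 * C)) atTop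
        (𝓝 (t * (∫ x, (f ^ 2 : C(T, ℝ)) x ∂ν) + t⁻¹ * Real.exp (18 * C))) :=
      (((hν.2 (f ^ 2)).comp (tendsto_id.const_mul_atTop' (by norm_num : (0:ℕ) < 2))).const_mul
        t).add_const _
    refine le_of_tendsto_of_tendsto' l1 l2 fun K => ?_
    have hPa : ∀ x, partialProd lam a φ (2 * K) x =
        ∏ k ∈ Finset.range K, blk 1 (α k) (γ k) (LL k • x) := fun x =>
      partial_blk a0 a1 p0 p1 K x
    have hPb : ∀ x, partialProd lam b φ (2 * K) x =
        ∏ k ∈ Finset.range K, blk 1 (β k) (γ k) (LL k • x) := fun x =>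
      partial_blk b0 b1 p0 p1 K x
    have cPa : Continuous (fun x : T => ∏ k ∈ Finset.range K, blk 1 (α k) (γ k) (LL k • x)) :=
      continuous_finsetProd _ fun i _ => (blk_cont _ _ _).comp (continuous_const_smul _)
    have cPb : Continuous (fun x : T => ∏ k ∈ Finset.range K, blk 1 (β k) (γ k) (LL k • x)) :=
      continuous_finsetProd _ fun i _ => (blk_cont _ _ _).comp (continuous_const_smul _)
    have cM : Continuous (fun x : T => ∏ k ∈ Finset.range K, maj (α k) (β k) (γ k) (LL k • x)) :=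
      continuous_finsetProd _ fun i _ => by
        unfold maj
        exact (((blk_cont _ _ _).add (continuous_const.mul
          ((blk_cont _ _ _).sub (blk_cont _ _ _)))).add continuous_const).comp
          (continuous_const_smul _)
    have hIM : ∫ x, ∏ k ∈ Finset.range K, maj (α k) (β k) (γ k) (LL k • x) ∂m ≤
        Real.exp (18 * C) := by
      rw [factR' hF (q := fun k => maj (α k) (β k) (γ k))
        (fun k => hT.1 4 (2 * dd k + 4) (by omega) (maj_TP hT _ _ _)) K]
      calc ∏ k ∈ Finset.range K, ∫ x, maj (α k) (β k) (γ k) x ∂m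
          = ∏ k ∈ Finset.range K, (1 + 18 * (α k - β k) ^ 2) :=
            Finset.prod_congr rfl fun k _ => int_maj _ _ _
        _ ≤ ∏ k ∈ Finset.range K, Real.exp (18 * (α k - β k) ^ 2) := by
            refine Finset.prod_le_prod (fun k _ => by positivity) fun k _ => ?_
            rw [add_comm]
            exact Real.add_one_le_exp _
        _ = Real.exp (∑ k ∈ Finset.range K, 18 * (α k - β k) ^ 2) := by rw [Real.exp_sum]
        _ ≤ Real.exp (18 * C) := by
            rw [← Finset.mul_sum]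
            exact Real.exp_le_exp.2 (mul_le_mul_of_nonneg_left (hC K) (by norm_num))
    have cf : Continuous f := f.continuous
    calc 2 * ∫ x, f x * partialProd lam a φ (2 * K) x ∂m
        = ∫ x, 2 * (f x * ∏ k ∈ Finset.range K, blk 1 (α k) (γ k) (LL k • x)) ∂m := by
          rw [integral_const_mul]; simp_rw [hPa]
      _ ≤ ∫ x, t * ((f ^ 2 : C(T, ℝ)) x * ∏ k ∈ Finset.range K, blk 1 (β k) (γ k) (LL k • x)) +
            t⁻¹ * ∏ k ∈ Finset.range K, maj (α k) (β k) (γ k) (LL k • x) ∂m := by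
          refine integral_mono (cint (continuous_const.mul (cf.mul cPa)))
            (cint ((continuous_const.mul ((f ^ 2).continuous.mul cPb)).add
              (continuous_const.mul cM))) fun x => ?_
          have hb : 0 < ∏ k ∈ Finset.range K, blk 1 (β k) (γ k) (LL k • x) :=
            Finset.prod_pos fun k _ => blk_pos hone (hβ' k) (hγ' k) _
          have hm : (∏ k ∈ Finset.range K, blk 1 (α k) (γ k) (LL k • x)) ^ 2 /
              (∏ k ∈ Finset.range K, blk 1 (β k) (γ k) (LL k • x)) ≤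
              ∏ k ∈ Finset.range K, maj (α k) (β k) (γ k) (LL k • x) := by
            rw [← Finset.prod_pow, ← Finset.prod_div_distrib]
            refine Finset.prod_le_prod (fun k _ => ?_) fun k _ => ?_
            · exact div_nonneg (sq_nonneg _) (blk_pos hone (hβ' k) (hγ' k) _).le
            · exact hAL (α k) (β k) (γ k) _ (hβ k) (hβγ k) (hγ k)
          simp only [ContinuousMap.pow_apply]
          generalize (∏ k ∈ Finset.range K, blk 1 (α k) (γ k) (LL k • x)) = A at *
          generalize (∏ k ∈ Finset.range K, blk 1 (β k) (γ k) (LL k • x)) = B at *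
          generalize (∏ k ∈ Finset.range K, maj (α k) (β k) (γ k) (LL k • x)) = D at *
          have h1 : 2 * (f x * A) ≤ t * (f x ^ 2 * B) + t⁻¹ * (A ^ 2 / B) := by
            have hq : 0 ≤ (t * f x * B - A) ^ 2 / (t * B) := by positivity
            have he : (t * f x * B - A) ^ 2 / (t * B) =
                t * (f x ^ 2 * B) + t⁻¹ * (A ^ 2 / B) - 2 * (f x * A) := by
              field_simp
              ring
            linarith
          have h2 : t⁻¹ * (A ^ 2 / B) ≤ t⁻¹ * D := mul_le_mul_of_nonneg_left hm (by positivity)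
          linarith
      _ = t * (∫ x, (f ^ 2 : C(T, ℝ)) x * partialProd lam b φ (2 * K) x ∂m) +
            t⁻¹ * ∫ x, ∏ k ∈ Finset.range K, maj (α k) (β k) (γ k) (LL k • x) ∂m := by
          have j1 : Integrable (fun x => t * ((f ^ 2 : C(T, ℝ)) x *
              ∏ k ∈ Finset.range K, blk 1 (β k) (γ k) (LL k • x))) m :=
            cint (continuous_const.mul ((f ^ 2).continuous.mul cPb))
          have j2 : Integrable (fun x => t⁻¹ *
              ∏ k ∈ Finset.range K, maj (α k) (β k) (γ k) (LL k • x)) m :=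
            cint (continuous_const.mul cM)
          rw [integral_add j1 j2, integral_const_mul, integral_const_mul]
          simp_rw [hPb]
      _ ≤ _ := by
          have := mul_le_mul_of_nonneg_left hIM (inv_nonneg.2 ht.le)
          linarith
  have hE := Real.exp_pos (18 * C)
  set I := ∫ x, f x ∂μ with hI
  set Q := ∫ x, f x ^ 2 ∂ν with hQ
  set E := Real.exp (18 * C) with hEd
  have hQ0 : 0 ≤ Q := integral_nonneg fun x => sq_nonneg _
  have k1 : ∀ t : ℝ, 0 < t → 2 * |I| ≤ t * Q + t⁻¹ * E := by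
    intro t ht
    have h1 := key f t ht
    have h2 := key (-f) t ht
    simp only [ContinuousMap.neg_apply, neg_sq, integral_neg] at h2
    rcases abs_cases I with ⟨h, _⟩ | ⟨h, _⟩ <;> rw [h]
    · exact h1
    · linarith
  have k2 : ∀ t : ℝ, 0 ≤ Q * (t * t) + (-(2 * |I|)) * t + E := by
    intro t
    rcases le_or_gt t 0 with ht | ht
    · have := mul_nonneg (abs_nonneg I) (neg_nonneg.2 ht)
      have := mul_nonneg hQ0 (mul_self_nonneg t)
      nlinarith
    · have h := mul_le_mul_of_nonneg_left (k1 t ht) ht.le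
      have : t * (t * Q + t⁻¹ * E) = Q * (t * t) + E := by
        field_simp
      nlinarith
  have k3 := discrim_le_zero k2
  unfold discrim at k3
  have : |I| ^ 2 = I ^ 2 := sq_abs I
  nlinarith

end Pool.Agent.N218.RZ
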