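import Pool.Agent.N218.RZ.Asm2

set_option autoImplicit false

open MeasureTheory Filter Topology

namespace Pool.Agent.N218.RZ

section
variable {a : ℕ → ℂ} {φ : ℕ → ℝ} {s : ℝ} {α γ : ℕ → ℝ}

lemma blk_TP' (hT : S_TPM) (s a c : ℝ) (i : ℕ) {n : ℕ} {p : T → ℝ}
    (hp : (fun x => ((p x : ℝ) : ℂ)) ∈ TP n) (hn : n ≤ 2 * dd i) :
    (fun x => ((p x * blk s a c x : ℝ) : ℂ)) ∈ TP (2 * dd i + 4) := by
  have h := hT.2.1 n 4 _ _ hp (blk_TP hT s a c)
  have := hT.1 (n + 4) (2 * dd i + 4) (by omega) h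
  convert this using 2
  push_cast
  rfl

lemma one_TP (hT : S_TPM) : (fun _ : T => (((1:ℝ) : ℝ) : ℂ)) ∈ TP 0 := by
  simpa using hT.2.2.1 1

/-- one block -/
lemma onept (hT : S_TPM) (hF : S_FACT)
    (h0 : ∀ k, a (2 * k) = ((α k : ℝ) : ℂ)) (h1 : ∀ k, a (2 * k + 1) = ((γ k : ℝ) : ℂ))
    (p0 : ∀ k, φ (2 * k) = 0) (p1 : ∀ k, Complex.exp (φ (2 * k + 1) * Complex.I) = (s : ℂ))
    {μ : Measure T} (hμ : IsRiesz lam a φ μ) (k : ℕ) {p : T → ℝ} (hp : Continuous p) {n : ℕ}
    (hpt : (fun x => ((p x : ℝ) : ℂ)) ∈ TP n) (hn : n ≤ 2 * dd k) :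
    ∫ x, p (LL k • x) ∂μ = ∫ x, p x * blk s (α k) (γ k) x ∂m := by
  have h := gform hT hF h0 h1 p0 p1 hμ (fun i x => if i = k then p x else 1)
    (fun i => by split_ifs; exacts [hp, continuous_const])
    (fun i => by
      split_ifs with hi
      · subst hi; exact blk_TP' hT _ _ _ _ hpt hn
      · exact blk_TP' hT _ _ _ _ (one_TP hT) (Nat.zero_le _)) (k + 1)
  have e1 : ∀ x : T, ∏ i ∈ Finset.range (k + 1), (if i = k then p (LL i • x) else 1) =
      p (LL k • x) := by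
    intro x
    rw [Finset.prod_eq_single k]
    · simp
    · intro i _ hi; simp [hi]
    · intro hk; simp at hk
  have e2 : ∏ i ∈ Finset.range (k + 1), ∫ x, (if i = k then p x else 1) *
      blk s (α i) (γ i) x ∂m = ∫ x, p x * blk s (α k) (γ k) x ∂m := by
    rw [Finset.prod_eq_single k]
    · simp
    · intro i _ hi; simp [hi, int_blk]
    · intro hk; simp at hk
  simp only [e1] at h
  rw [h, e2]

/-- two blocks -/
lemma twopt (hT : S_TPM) (hF : S_FACT)
    (h0 : ∀ k, a (2 * k) = ((α k : ℝ) : ℂ)) (h1 : ∀ k, a (2 * k + 1) = ((γ k : ℝ) : ℂ))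
    (p0 : ∀ k, φ (2 * k) = 0) (p1 : ∀ k, Complex.exp (φ (2 * k + 1) * Complex.I) = (s : ℂ))
    {μ : Measure T} (hμ : IsRiesz lam a φ μ) {k l : ℕ} (hkl : k ≠ l) {p q : T → ℝ}
    (hp : Continuous p) (hq : Continuous q) {n n' : ℕ}
    (hpt : (fun x => ((p x : ℝ) : ℂ)) ∈ TP n) (hn : n ≤ 2 * dd k)
    (hqt : (fun x => ((q x : ℝ) : ℂ)) ∈ TP n') (hn' : n' ≤ 2 * dd l) :
    ∫ x, p (LL k • x) * q (LL l • x) ∂μ =
      (∫ x, p x * blk s (α k) (γ k) x ∂m) * ∫ x, q x * blk s (α l) (γ l) x ∂m := by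
  have h := gform hT hF h0 h1 p0 p1 hμ (fun i x => if i = k then p x else if i = l then q x else 1)
    (fun i => by split_ifs; exacts [hp, hq, continuous_const])
    (fun i => by
      split_ifs with hi hi
      · subst hi; exact blk_TP' hT _ _ _ _ hpt hn
      · subst hi; exact blk_TP' hT _ _ _ _ hqt hn'
      · exact blk_TP' hT _ _ _ _ (one_TP hT) (Nat.zero_le _)) (max k l + 1)
  have hk : k ∈ Finset.range (max k l + 1) := Finset.mem_range.2 (by omega)
  have hl : l ∈ Finset.range (max k l + 1) := Finset.mem_range.2 (by omega)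
  have e1 : ∀ x : T, ∏ i ∈ Finset.range (max k l + 1),
      (if i = k then p (LL i • x) else if i = l then q (LL i • x) else 1) =
      p (LL k • x) * q (LL l • x) := by
    intro x
    rw [Finset.prod_eq_mul k l hkl]
    · simp [hkl.symm]
    · rintro i _ ⟨hi, hi'⟩; simp [hi, hi']
    · intro h'; exact absurd hk h'
    · intro h'; exact absurd hl h'
  have e2 : ∏ i ∈ Finset.range (max k l + 1),
      ∫ x, (if i = k then p x else if i = l then q x else 1) * blk s (α i) (γ i) x ∂m =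
      (∫ x, p x * blk s (α k) (γ k) x ∂m) * ∫ x, q x * blk s (α l) (γ l) x ∂m := by
    rw [Finset.prod_eq_mul k l hkl]
    · simp [hkl.symm]
    · rintro i _ ⟨hi, hi'⟩; simp [hi, hi', int_blk]
    · intro h'; exact absurd hk h'
    · intro h'; exact absurd hl h'
  simp only [e1] at h
  rw [h, e2]

lemma yy_TP (hT : S_TPM) (n : ℕ) : (fun x => ((yy x ^ n : ℝ) : ℂ)) ∈ TP n := by
  induction n with
  | zero => simpa using hT.2.2.1 1
  | succ n ih =>
    have h1 : (fun x => ((yy x : ℝ) : ℂ)) ∈ TP 1 := by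
      have := Submodule.smul_mem (TP 1) (1 / 2 : ℂ) (Submodule.sub_mem _
        (hT.1 0 1 (by norm_num) (hT.2.2.1 1)) hT.2.2.2.2.1)
      convert this using 1
      ext x
      unfold yy
      simp only [Pi.smul_apply, Pi.sub_apply, smul_eq_mul]
      push_cast
      ring
    have := hT.2.1 n 1 _ _ ih h1
    convert this using 2
    push_cast
    ring

lemma mcint {μ : Measure T} [IsFiniteMeasure μ] {f : T → ℝ} (hf : Continuous f) :
    Integrable f μ :=
  hf.integrable_of_hasCompactSupport (HasCompactSupport.of_compactSpace _)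

/-- the variance -/
lemma var_le (hT : S_TPM) (hF : S_FACT)
    (h0 : ∀ k, a (2 * k) = ((α k : ℝ) : ℂ)) (h1 : ∀ k, a (2 * k + 1) = ((γ k : ℝ) : ℂ))
    (p0 : ∀ k, φ (2 * k) = 0) (p1 : ∀ k, Complex.exp (φ (2 * k + 1) * Complex.I) = (s : ℂ))
    {μ : Measure T} (hμ : IsRiesz lam a φ μ) (B : Finset ℕ) (d : ℕ) (A G : ℝ)
    (hA : ∀ k ∈ B, α k = A) (hG : ∀ k ∈ B, γ k = G) (hd : ∀ k ∈ B, dd k = d) :
    ∫ x, (∑ k ∈ B, yy (LL k • x) ^ d - B.card * ∫ x, yy x ^ d * blk s A G x ∂m) ^ 2 ∂μ ≤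
      B.card * ∫ x, (yy x ^ d) ^ 2 * blk s A G x ∂m := by
  haveI := hμ.1
  set M := ∫ x, yy x ^ d * blk s A G x ∂m with hM
  set V := ∫ x, (yy x ^ d) ^ 2 * blk s A G x ∂m with hV
  have cy : Continuous (fun x => yy x ^ d - M) := (yy_cont.pow d).sub continuous_const
  have cyk : ∀ k, Continuous (fun x : T => yy (LL k • x) ^ d - M) := fun k =>
    cy.comp (continuous_const_smul (LL k))
  have tp : (fun x => ((yy x ^ d - M : ℝ) : ℂ)) ∈ TP d := by
    have := Submodule.sub_mem _ (yy_TP hT d) (hT.1 0 d (Nat.zero_le _) (hT.2.2.1 (M : ℂ)))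
    convert this using 1
    ext x
    simp
  have tp2 : (fun x => (((yy x ^ d - M) ^ 2 : ℝ) : ℂ)) ∈ TP (d + d) := by
    have := hT.2.1 d d _ _ tp tp
    convert this using 2
    push_cast
    ring
  have hsum : ∀ x : T, ∑ k ∈ B, yy (LL k • x) ^ d - B.card * M =
      ∑ k ∈ B, (yy (LL k • x) ^ d - M) := by
    intro x
    rw [Finset.sum_sub_distrib]
    simp
  have hb1 : Integrable (fun x => yy x ^ d * blk s A G x) m :=
    cint ((yy_cont.pow d).mul (blk_cont _ _ _))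
  have hb2 : Integrable (fun x => (yy x ^ d) ^ 2 * blk s A G x) m :=
    cint (((yy_cont.pow d).pow 2).mul (blk_cont _ _ _))
  have hb3 : Integrable (fun x => blk s A G x) m := cint (blk_cont _ _ _)
  have z1 : ∫ x, (yy x ^ d - M) * blk s A G x ∂m = 0 := by
    have : ∀ x, (yy x ^ d - M) * blk s A G x = yy x ^ d * blk s A G x - M * blk s A G x :=
      fun x => by ring
    simp_rw [this]
    rw [integral_sub hb1 (hb3.const_mul M), integral_const_mul, int_blk]
    simp [hM]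
  have z2 : ∫ x, (yy x ^ d - M) ^ 2 * blk s A G x ∂m ≤ V := by
    have : ∀ x, (yy x ^ d - M) ^ 2 * blk s A G x = (yy x ^ d) ^ 2 * blk s A G x -
        2 * M * (yy x ^ d * blk s A G x) + M ^ 2 * blk s A G x := fun x => by ring
    simp_rw [this]
    have j1 : Integrable (fun x => (yy x ^ d) ^ 2 * blk s A G x -
        2 * M * (yy x ^ d * blk s A G x)) m := hb2.sub (hb1.const_mul (2 * M))
    rw [integral_add j1 (hb3.const_mul (M ^ 2)), integral_sub hb2 (hb1.const_mul (2 * M)),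
      integral_const_mul, integral_const_mul, int_blk, ← hM, ← hV]
    nlinarith [sq_nonneg M]
  have hkl : ∀ k ∈ B, ∀ l ∈ B, ∫ x, (yy (LL k • x) ^ d - M) * (yy (LL l • x) ^ d - M) ∂μ =
      if k = l then ∫ x, (yy x ^ d - M) ^ 2 * blk s A G x ∂m else 0 := by
    intro k hk l hl
    split_ifs with h
    · subst h
      have := onept hT hF h0 h1 p0 p1 hμ k (p := fun x => (yy x ^ d - M) ^ 2) (cy.pow 2) tp2
        (by rw [hd k hk]; omega)
      rw [hA k hk, hG k hk] at this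
      rw [← this]
      congr 1
      ext x
      ring
    · have := twopt hT hF h0 h1 p0 p1 hμ h cy cy tp (by rw [hd k hk]; omega) tp
        (by rw [hd l hl]; omega)
      rw [hA k hk, hG k hk, hA l hl, hG l hl, z1] at this
      simpa using this
  calc ∫ x, (∑ k ∈ B, yy (LL k • x) ^ d - B.card * M) ^ 2 ∂μ
      = ∫ x, ∑ k ∈ B, ∑ l ∈ B, (yy (LL k • x) ^ d - M) * (yy (LL l • x) ^ d - M) ∂μ := by
        congr 1
        ext x
        rw [hsum, sq, Finset.sum_mul_sum]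
    _ = ∑ k ∈ B, ∑ l ∈ B, ∫ x, (yy (LL k • x) ^ d - M) * (yy (LL l • x) ^ d - M) ∂μ := by
        have hi : ∀ k l, Integrable (fun x : T => (yy (LL k • x) ^ d - M) *
            (yy (LL l • x) ^ d - M)) μ := fun k l => mcint ((cyk k).mul (cyk l))
        rw [integral_finsetSum _ fun k _ => integrable_finsetSum _ fun l _ => hi k l]
        refine Finset.sum_congr rfl fun k _ => ?_
        rw [integral_finsetSum _ fun l _ => hi k l]
    _ = ∑ k ∈ B, ∑ l ∈ B, (if k = l then ∫ x, (yy x ^ d - M) ^ 2 * blk s A G x ∂m else 0) :=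
        Finset.sum_congr rfl fun k hk => Finset.sum_congr rfl fun l hl => hkl k hk l hl
    _ = ∑ k ∈ B, ∫ x, (yy x ^ d - M) ^ 2 * blk s A G x ∂m := by
        refine Finset.sum_congr rfl fun k hk => ?_
        rw [Finset.sum_ite_eq, if_pos hk]
    _ = B.card * ∫ x, (yy x ^ d - M) ^ 2 * blk s A G x ∂m := by
        rw [Finset.sum_const, nsmul_eq_mul]
    _ ≤ B.card * V := mul_le_mul_of_nonneg_left z2 (Nat.cast_nonneg _)

lemma prob (hT : S_TPM) (hF : S_FACT)
    (h0 : ∀ k, a (2 * k) = ((α k : ℝ) : ℂ)) (h1 : ∀ k, a (2 * k + 1) = ((γ k : ℝ) : ℂ))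
    (p0 : ∀ k, φ (2 * k) = 0) (p1 : ∀ k, Complex.exp (φ (2 * k + 1) * Complex.I) = (s : ℂ))
    {μ : Measure T} (hμ : IsRiesz lam a φ μ) : IsProbabilityMeasure μ := by
  haveI := hμ.1
  have h := gform hT hF h0 h1 p0 p1 hμ (fun _ _ => 1) (fun _ => continuous_const)
    (fun i => blk_TP' hT _ _ _ _ (one_TP hT) (Nat.zero_le _)) 0
  simp only [Finset.range_zero, Finset.prod_empty, integral_const, smul_eq_mul, mul_one] at h
  constructor
  have h2 : (μ Set.univ).toReal = 1 := h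
  rw [← ENNReal.toReal_eq_toReal_iff' (measure_ne_top _ _) ENNReal.one_ne_top]
  simpa using h2

end

end Pool.Agent.N218.RZ
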