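import Mathlib

/-!
# Riesz products with aligned and opposite zeros (MP_b30265_an): definitions

Plan. `Λ 0 = 1`, `Λ (k+1) = (2 d k + 5) Λ k`; the frequencies are `lam (2k) = Λ k`,
`lam (2k+1) = 3 Λ k`.  With `ε k = 1 / d k`: `a (2k) = 1 - ε k`, `b (2k) = 1 - 2 ε k`,
`a (2k+1) = b (2k+1) = 1 - ε k`, phases `0` and `0` (first pair of measures), `0` and `π` (second pair).
-/

set_option autoImplicit false

open MeasureTheory Filter Topology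

namespace Pool.Agent.N218.RZ

/-- The circle `ℝ / 2πℤ`. -/
abbrev T : Type := AddCircle (2 * Real.pi)

instance factTwoPi : Fact (0 < 2 * Real.pi) := ⟨Real.two_pi_pos⟩

/-- Lebesgue probability measure `dx / 2π` on the circle. -/
noncomputable abbrev m : Measure T := AddCircle.haarAddCircle

/-- The function `e^(i j x)` on the circle. -/
noncomputable def e (j : ℤ) (x : T) : ℂ := fourier j x

/-- `cos x` -/
noncomputable def cs (x : T) : ℝ := (e 1 x).re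

/-- `cos 3x` -/
noncomputable def cs3 (x : T) : ℝ := (e 3 x).re

/-- The factor `1 + Re (a e^(i (l x + φ)))`. -/
noncomputable def factor (l : ℕ) (a : ℂ) (φ : ℝ) (x : T) : ℝ :=
  1 + (a * (Complex.exp (φ * Complex.I) * e l x)).re

/-- The partial product `∏_{n < N} (1 + Re (a_n e^(i (λ_n x + φ_n))))`. -/
noncomputable def partialProd (lam : ℕ → ℕ) (a : ℕ → ℂ) (φ : ℕ → ℝ) (N : ℕ) (x : T) : ℝ :=
  ∏ n ∈ Finset.range N, factor (lam n) (a n) (φ n) x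

/-- `μ` is the Riesz product: the weak-* limit of the partial products. -/
def IsRiesz (lam : ℕ → ℕ) (a : ℕ → ℂ) (φ : ℕ → ℝ) (μ : Measure T) : Prop :=
  IsFiniteMeasure μ ∧ ∀ f : C(T, ℝ),
    Tendsto (fun N => ∫ x, f x * partialProd lam a φ N x ∂m) atTop (𝓝 (∫ x, f x ∂μ))

/-- Trigonometric polynomials of degree at most `D`, as functions. -/
noncomputable def TP (D : ℕ) : Submodule ℂ (T → ℂ) :=
  Submodule.span ℂ {f | ∃ j : ℤ, |j| ≤ (D : ℤ) ∧ f = e j}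

/-- `(1 - cos x) / 2` -/
noncomputable def yy (x : T) : ℝ := (1 - cs x) / 2

/-- The block density `(1 + a cos x) (1 + s c cos 3x)`, `s = 1` (aligned) or `s = -1` (opposite). -/
noncomputable def blk (s a c : ℝ) (x : T) : ℝ := (1 + a * cs x) * (1 + s * c * cs3 x)

/-! ### Statements of the leaves -/

/-- EX: existence of the Riesz product when `λ_(n+1) ≥ 3 λ_n`. -/
def S_EX : Prop := ∀ (lam : ℕ → ℕ) (a : ℕ → ℂ) (φ : ℕ → ℝ), 0 < lam 0 →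
  (∀ n, 3 * lam n ≤ lam (n + 1)) → (∀ n, ‖a n‖ ≤ 1) → ∃ μ : Measure T, IsRiesz lam a φ μ

/-- AC: a quadratic inequality for continuous functions gives absolute continuity. -/
def S_AC : Prop := ∀ (μ ν : Measure T), IsFiniteMeasure μ → IsFiniteMeasure ν →
  (∃ C : ℝ, ∀ f : C(T, ℝ), (∫ x, f x ∂μ) ^ 2 ≤ C * ∫ x, f x ^ 2 ∂ν) → μ ≪ ν

/-- FACT: factorisation of the mean of a product of dilated trigonometric polynomials. -/
def S_FACT : Prop := ∀ (D Λ : ℕ → ℕ) (q : ℕ → T → ℂ), (∀ k, q k ∈ TP (D k)) →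
  (∀ M, ∑ k ∈ Finset.range M, D k * Λ k < Λ M) →
  ∀ M, ∫ x, ∏ k ∈ Finset.range M, q k (Λ k • x) ∂m = ∏ k ∈ Finset.range M, ∫ x, q k x ∂m

/-- TPM: closure properties of trigonometric polynomials. -/
def S_TPM : Prop :=
  (∀ D E : ℕ, D ≤ E → TP D ≤ TP E) ∧
  (∀ (D E : ℕ) (f g : T → ℂ), f ∈ TP D → g ∈ TP E → (fun x => f x * g x) ∈ TP (D + E)) ∧
  (∀ (c : ℂ), (fun _ : T => c) ∈ TP 0) ∧
  (∀ (D : ℕ) (f : T → ℂ), f ∈ TP D → Continuous f) ∧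
  ((fun x => ((cs x : ℝ) : ℂ)) ∈ TP 1) ∧ ((fun x => ((cs3 x : ℝ) : ℂ)) ∈ TP 3) ∧
  (∀ (D : ℕ) (f : T → ℂ), f ∈ TP D → ∀ L : ℕ, (fun x => f (L • x)) ∈ TP (D * L))

/-- MOM: the moments of the test function `((1 - cos x) / 2) ^ d`. -/
def S_MOM : Prop := ∀ d : ℕ, 64 ≤ d →
  1 / (2 * √(d : ℝ)) ≤ (∫ x, yy x ^ d ∂m) ∧
  1 / (d : ℝ) * (∫ x, yy x ^ d ∂m) / 2 ≤
    (∫ x, yy x ^ d * blk (-1) (1 - 2 / d) (1 - 1 / d) x ∂m) -
      ∫ x, yy x ^ d * blk (-1) (1 - 1 / d) (1 - 1 / d) x ∂m ∧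
  ∀ a : ℝ, (a = 1 - 1 / (d : ℝ) ∨ a = 1 - 2 / (d : ℝ)) →
    (∫ x, (yy x ^ d) ^ 2 * blk (-1) a (1 - 1 / d) x ∂m) ≤ 5 / d * ∫ x, yy x ^ d ∂m

/-- ALI: the pointwise inequality in the aligned case. -/
def S_ALI : Prop := ∀ (a b c : ℝ) (x : T), 1 / 2 ≤ b → b ≤ c → c < 1 →
  blk 1 a c x ^ 2 / blk 1 b c x ≤
    blk 1 b c x + 2 * (blk 1 a c x - blk 1 b c x) + 18 * (a - b) ^ 2

/-- SING: Chebyshev and Borel-Cantelli. -/
def S_SING : Prop := ∀ (μ ν : Measure T), IsProbabilityMeasure μ → IsProbabilityMeasure ν →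
  ∀ (X : ℕ → T → ℝ) (p q : ℕ → ℝ) (α : ℕ → ℝ), (∀ j, Continuous (X j)) → (∀ j, p j < q j) →
    Summable α →
    (∀ j, (∫ x, (X j x - p j) ^ 2 ∂μ) ≤ α j * (q j - p j) ^ 2) →
    (∀ j, (∫ x, (X j x - q j) ^ 2 ∂ν) ≤ α j * (q j - p j) ^ 2) →
    μ ⟂ₘ ν

/-! ### The data -/

/-- degree of the test function of the block `k` -/
def dd (k : ℕ) : ℕ := 64 ^ (Nat.log 1024 k + 1)

/-- basic frequencies -/
def LL : ℕ → ℕ
  | 0 => 1
  | k + 1 => (2 * dd k + 5) * LL k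

/-- frequencies -/
def lam (n : ℕ) : ℕ := if n % 2 = 0 then LL (n / 2) else 3 * LL (n / 2)

/-- first coefficients -/
noncomputable def ca (n : ℕ) : ℂ := ((1 - 1 / (dd (n / 2) : ℝ) : ℝ) : ℂ)

/-- second coefficients -/
noncomputable def cb (n : ℕ) : ℂ :=
  if n % 2 = 0 then ((1 - 2 / (dd (n / 2) : ℝ) : ℝ) : ℂ) else ((1 - 1 / (dd (n / 2) : ℝ) : ℝ) : ℂ)

/-- phases -/
noncomputable def ph (n : ℕ) : ℝ := if n % 2 = 0 then 0 else Real.pi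

/-- PER: bounds for the sums over the blocks. -/
def S_PER : Prop :=
  (∃ C : ℝ, ∀ K : ℕ, ∑ k ∈ Finset.range K, (1 / (dd k : ℝ)) ^ 2 ≤ C) ∧
  (∀ j k : ℕ, k ∈ Finset.Ico (1024 ^ j) (1024 ^ (j + 1)) → dd k = 64 ^ (j + 1)) ∧
  Summable (fun j : ℕ => 160 * ((64 : ℝ) ^ (j + 1) * 8 ^ (j + 1)) / (1023 * 1024 ^ j))

end Pool.Agent.N218.RZ
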