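import Mathlib
import Pool.Agent.N218.RZ.Defs

/-!
# Existence of Riesz products
-/

set_option autoImplicit false

open MeasureTheory Filter Topology

namespace Pool.Agent.N218.RZ

private theorem ex_int (j : ℤ) (hj : j ≠ 0) : ∫ x, e j x ∂m = 0 :=
  integral_eq_zero_of_add_right_eq_neg (μ := m)
    (fun x => fourier_add_half_inv_index hj Real.two_pi_pos x)

private theorem ex_cont_e (j : ℤ) : Continuous (e j) := (fourier j).continuous

private theorem ex_e_add (i j : ℤ) (x : T) : e (i + j) x = e i x * e j x := fourier_add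

private theorem ex_e_neg (i : ℤ) (x : T) : e (-i) x = (starRingEnd ℂ) (e i x) := fourier_neg

private theorem ex_norm_e (j : ℤ) (x : T) : ‖e j x‖ = 1 := Circle.norm_coe _

private theorem ex_integrable {E : Type*} [NormedAddCommGroup E] {f : T → E} (hf : Continuous f) :
    Integrable f m := hf.integrable_of_hasCompactSupport (HasCompactSupport.of_compactSpace _)

private theorem ex_mul (D : ℕ) (f : T → ℂ) (hf : f ∈ TP D) (j : ℤ) :
    (fun x => f x * e j x) ∈ TP (D + j.natAbs) := by
  unfold TP at hf ⊢
  induction hf using Submodule.span_induction with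
  | mem g hg =>
    obtain ⟨i, hi, rfl⟩ := hg
    apply Submodule.subset_span
    refine ⟨i + j, ?_, ?_⟩
    · push_cast
      exact (abs_add_le i j).trans (by omega)
    · funext x
      rw [ex_e_add]
  | zero =>
    have e0 : (fun x => (0 : T → ℂ) x * e j x) = 0 := by
      funext x
      simp
    rw [e0]
    exact Submodule.zero_mem _
  | add f g _ _ h1 h2 =>
    have h3 := Submodule.add_mem _ h1 h2
    convert h3 using 1
    funext x
    simp only [Pi.add_apply]
    ring
  | smul c f _ h1 =>
    have h3 := Submodule.smul_mem _ c h1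
    convert h3 using 1
    funext x
    simp only [Pi.smul_apply, smul_eq_mul]
    ring

private theorem ex_orth (D : ℕ) (f : T → ℂ) (hf : f ∈ TP D) (j : ℤ) (hj : (D : ℤ) < |j|) :
    Continuous f ∧ ∫ x, f x * e j x ∂m = 0 := by
  unfold TP at hf
  induction hf using Submodule.span_induction with
  | mem g hg =>
    obtain ⟨i, hi, rfl⟩ := hg
    refine ⟨ex_cont_e i, ?_⟩
    have h1 : ∀ x, e i x * e j x = e (i + j) x := fun x => (ex_e_add i j x).symm
    simp_rw [h1]
    apply ex_int
    intro h2
    have h3 : i = -j := by omega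
    rw [h3, abs_neg] at hi
    omega
  | zero => exact ⟨continuous_const, by simp⟩
  | add f g _ _ h1 h2 =>
    refine ⟨h1.1.add h2.1, ?_⟩
    have e1 : ∀ x, (f + g) x * e j x = f x * e j x + g x * e j x := fun x => by
      simp only [Pi.add_apply]; ring
    simp_rw [e1]
    have i1 : Integrable (fun x => f x * e j x) m := ex_integrable (h1.1.mul (ex_cont_e j))
    have i2 : Integrable (fun x => g x * e j x) m := ex_integrable (h2.1.mul (ex_cont_e j))
    rw [integral_add i1 i2, h1.2, h2.2, add_zero]
  | smul c f _ h1 =>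
    refine ⟨h1.1.const_smul c, ?_⟩
    have e1 : ∀ x, (c • f) x * e j x = c * (f x * e j x) := fun x => by
      simp only [Pi.smul_apply, smul_eq_mul]; ring
    simp_rw [e1]
    rw [integral_const_mul, h1.2, mul_zero]

private theorem ex_mono (D E : ℕ) (h : D ≤ E) : TP D ≤ TP E := by
  apply Submodule.span_mono
  rintro f ⟨j, hj, rfl⟩
  exact ⟨j, hj.trans (by exact_mod_cast h), rfl⟩

/-- the factor in terms of exponentials -/
private theorem ex_factor (l : ℕ) (a : ℂ) (φ : ℝ) : ∃ c d : ℂ, ∀ x,
    ((factor l a φ x : ℝ) : ℂ) = 1 + c * e l x + d * e (-l) x := by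
  refine ⟨a * Complex.exp (φ * Complex.I) / 2,
    (starRingEnd ℂ) (a * Complex.exp (φ * Complex.I)) / 2, fun x => ?_⟩
  unfold factor
  push_cast
  rw [ex_e_neg, Complex.re_eq_add_conj, ← mul_assoc]
  simp only [map_mul]
  ring

private theorem ex_factor_nonneg (l : ℕ) (a : ℂ) (ha : ‖a‖ ≤ 1) (φ : ℝ) (x : T) :
    0 ≤ factor l a φ x := by
  unfold factor
  have h1 : ‖a * (Complex.exp (φ * Complex.I) * e l x)‖ ≤ 1 := by
    rw [norm_mul, norm_mul, ex_norm_e, Complex.norm_exp_ofReal_mul_I]
    simpa using ha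
  have h2 := Complex.abs_re_le_norm (a * (Complex.exp (φ * Complex.I) * e l x))
  have h3 := neg_abs_le (a * (Complex.exp (φ * Complex.I) * e l x)).re
  linarith

private theorem ex_factor_cont (l : ℕ) (a : ℂ) (φ : ℝ) : Continuous (factor l a φ) := by
  unfold factor
  exact continuous_const.add (Complex.continuous_re.comp
    (continuous_const.mul (continuous_const.mul (ex_cont_e l))))

section

variable (lam : ℕ → ℕ) (a : ℕ → ℂ) (φ : ℕ → ℝ)

private theorem ex_P_cont (N : ℕ) : Continuous (partialProd lam a φ N) := by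
  unfold partialProd
  exact continuous_finsetProd _ fun n _ => ex_factor_cont _ _ _

private theorem ex_P_nonneg (ha : ∀ n, ‖a n‖ ≤ 1) (N : ℕ) (x : T) :
    0 ≤ partialProd lam a φ N x := by
  unfold partialProd
  exact Finset.prod_nonneg fun n _ => ex_factor_nonneg _ _ (ha n) _ _

private theorem ex_P_succ (N : ℕ) (x : T) :
    partialProd lam a φ (N + 1) x = partialProd lam a φ N x * factor (lam N) (a N) (φ N) x := by
  unfold partialProd
  rw [Finset.prod_range_succ]

private theorem ex_P_TP (N : ℕ) :
    (fun x => ((partialProd lam a φ N x : ℝ) : ℂ)) ∈ TP (∑ n ∈ Finset.range N, lam n) := by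
  induction N with
  | zero =>
    have h1 : (fun x => ((partialProd lam a φ 0 x : ℝ) : ℂ)) = e 0 := by
      funext x
      simp only [partialProd, Finset.range_zero, Finset.prod_empty, Complex.ofReal_one]
      unfold e
      rw [fourier_zero]
    rw [h1]
    exact Submodule.subset_span ⟨0, by simp, rfl⟩
  | succ N ih =>
    obtain ⟨c, d, hcd⟩ := ex_factor (lam N) (a N) (φ N)
    have h1 : (fun x => ((partialProd lam a φ (N + 1) x : ℝ) : ℂ)) =
        (fun x => ((partialProd lam a φ N x : ℝ) : ℂ)) +
        c • (fun x => ((partialProd lam a φ N x : ℝ) : ℂ) * e (lam N) x) +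
        d • (fun x => ((partialProd lam a φ N x : ℝ) : ℂ) * e (-lam N) x) := by
      funext x
      rw [ex_P_succ]
      push_cast
      rw [hcd]
      simp only [Pi.add_apply, Pi.smul_apply, smul_eq_mul]
      ring
    rw [h1, Finset.sum_range_succ]
    refine Submodule.add_mem _ (Submodule.add_mem _ ?_ ?_) ?_
    · exact ex_mono _ _ (Nat.le_add_right _ _) ih
    · apply Submodule.smul_mem
      have := ex_mul _ _ ih (lam N)
      simpa using this
    · apply Submodule.smul_mem
      have := ex_mul _ _ ih (-lam N)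
      simpa using this

private theorem ex_sum_lt (h0 : 0 < lam 0) (h3 : ∀ n, 3 * lam n ≤ lam (n + 1)) (N : ℕ) :
    ∑ n ∈ Finset.range N, lam n + N < lam N := by
  induction N with
  | zero => simpa using h0
  | succ N ih =>
    rw [Finset.sum_range_succ]
    have := h3 N
    omega

private theorem ex_step (h0 : 0 < lam 0) (h3 : ∀ n, 3 * lam n ≤ lam (n + 1)) (k : ℤ) (N : ℕ)
    (hN : k.natAbs ≤ N) :
    ∫ x, e k x * ((partialProd lam a φ (N + 1) x : ℝ) : ℂ) ∂m =
      ∫ x, e k x * ((partialProd lam a φ N x : ℝ) : ℂ) ∂m := by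
  obtain ⟨c, d, hcd⟩ := ex_factor (lam N) (a N) (φ N)
  have hlt := ex_sum_lt lam h0 h3 N
  set S := ∑ n ∈ Finset.range N, lam n with hS
  have hP := ex_P_TP lam a φ N
  have h1 := ex_orth _ _ hP (k + lam N) (by
    rw [← hS, lt_abs]; left; omega)
  have h2 := ex_orth _ _ hP (k + -lam N) (by
    rw [← hS, lt_abs]; right; omega)
  have e1 : ∀ x, e k x * ((partialProd lam a φ (N + 1) x : ℝ) : ℂ) =
      e k x * ((partialProd lam a φ N x : ℝ) : ℂ) +
      c * (((partialProd lam a φ N x : ℝ) : ℂ) * e (k + lam N) x) +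
      d * (((partialProd lam a φ N x : ℝ) : ℂ) * e (k + -lam N) x) := by
    intro x
    rw [ex_P_succ]
    push_cast
    rw [hcd, ex_e_add, ex_e_add]
    ring
  simp_rw [e1]
  have hc := h1.1
  have i1 : Integrable (fun x => e k x * ((partialProd lam a φ N x : ℝ) : ℂ)) m :=
    ex_integrable ((ex_cont_e k).mul hc)
  have i2 : Integrable (fun x => c * (((partialProd lam a φ N x : ℝ) : ℂ) * e (k + lam N) x)) m :=
    ex_integrable (continuous_const.mul (hc.mul (ex_cont_e _)))
  have i3 : Integrable (fun x => d * (((partialProd lam a φ N x : ℝ) : ℂ) * e (k + -lam N) x)) m :=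
    ex_integrable (continuous_const.mul (hc.mul (ex_cont_e _)))
  have i4 : Integrable (fun x => e k x * ((partialProd lam a φ N x : ℝ) : ℂ) +
      c * (((partialProd lam a φ N x : ℝ) : ℂ) * e (k + lam N) x)) m := i1.add i2
  rw [integral_add i4 i3, integral_add i1 i2, integral_const_mul, integral_const_mul,
    h1.2, h2.2]
  simp

private theorem ex_const (h0 : 0 < lam 0) (h3 : ∀ n, 3 * lam n ≤ lam (n + 1)) (k : ℤ) (N : ℕ)
    (hN : k.natAbs ≤ N) :
    ∫ x, e k x * ((partialProd lam a φ N x : ℝ) : ℂ) ∂m =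
      ∫ x, e k x * ((partialProd lam a φ k.natAbs x : ℝ) : ℂ) ∂m := by
  induction N, hN using Nat.le_induction with
  | base => rfl
  | succ N hN ih => rw [ex_step lam a φ h0 h3 k N hN, ih]

private theorem ex_mass (h0 : 0 < lam 0) (h3 : ∀ n, 3 * lam n ≤ lam (n + 1)) (N : ℕ) :
    ∫ x, partialProd lam a φ N x ∂m = 1 := by
  have h1 := ex_const lam a φ h0 h3 0 N (by simp)
  have h2 : ∀ x : T, e 0 x = 1 := fun x => by unfold e; exact fourier_zero
  simp only [h2, one_mul, Int.natAbs_zero] at h1
  have h4 : ∀ x, ((partialProd lam a φ 0 x : ℝ) : ℂ) = 1 := fun x => by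
    simp [partialProd]
  simp only [h4] at h1
  rw [integral_complex_ofReal] at h1
  have h5 : ∫ _ : T, (1 : ℂ) ∂m = 1 := by simp
  rw [h5] at h1
  exact_mod_cast h1

/-- the integrals of a complex continuous function form a Cauchy sequence -/
private theorem ex_cauchy (h0 : 0 < lam 0) (h3 : ∀ n, 3 * lam n ≤ lam (n + 1))
    (ha : ∀ n, ‖a n‖ ≤ 1) (f : C(T, ℂ)) :
    CauchySeq fun N => ∫ x, f x * ((partialProd lam a φ N x : ℝ) : ℂ) ∂m := by
  have hPc : ∀ N, Continuous fun x => ((partialProd lam a φ N x : ℝ) : ℂ) := fun N =>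
    Complex.continuous_ofReal.comp (ex_P_cont lam a φ N)
  have hspan : ∀ g ∈ Submodule.span ℂ (Set.range (@fourier (2 * Real.pi))),
      CauchySeq fun N => ∫ x, g x * ((partialProd lam a φ N x : ℝ) : ℂ) ∂m := by
    intro g hg
    induction hg using Submodule.span_induction with
    | mem g hg =>
      obtain ⟨k, rfl⟩ := hg
      apply Filter.Tendsto.cauchySeq (x := ∫ x, e k x *
        ((partialProd lam a φ k.natAbs x : ℝ) : ℂ) ∂m)
      apply tendsto_const_nhds.congr'
      filter_upwards [eventually_ge_atTop k.natAbs] with N hN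
      exact (ex_const lam a φ h0 h3 k N hN).symm
    | zero =>
      simp only [ContinuousMap.coe_zero, Pi.zero_apply, zero_mul, integral_zero]
      exact cauchySeq_const 0
    | add f g _ _ h1 h2 =>
      have h4 := h1.add h2
      convert h4 using 1
      funext N
      simp only [Pi.add_apply, ContinuousMap.coe_add]
      have i1 : Integrable (fun x => f x * ((partialProd lam a φ N x : ℝ) : ℂ)) m :=
        ex_integrable (f.continuous.mul (hPc N))
      have i2 : Integrable (fun x => g x * ((partialProd lam a φ N x : ℝ) : ℂ)) m :=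
        ex_integrable (g.continuous.mul (hPc N))
      rw [← integral_add i1 i2]
      congr 1
      funext x
      ring
    | smul c f _ h1 =>
      obtain ⟨L, hL⟩ := cauchySeq_tendsto_of_complete h1
      have h4 := (hL.const_mul c).cauchySeq
      have e5 : (fun N => ∫ x, (c • f) x * ((partialProd lam a φ N x : ℝ) : ℂ) ∂m) =
          fun N => c * ∫ x, f x * ((partialProd lam a φ N x : ℝ) : ℂ) ∂m := by
        funext N
        rw [← integral_const_mul]
        congr 1
        funext x
        simp only [ContinuousMap.coe_smul, Pi.smul_apply, smul_eq_mul]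
        ring
      rw [e5]
      exact h4
  have hf : f ∈ (Submodule.span ℂ (Set.range (@fourier (2 * Real.pi)))).topologicalClosure := by
    rw [span_fourier_closure_eq_top]; trivial
  rw [← SetLike.mem_coe, Submodule.topologicalClosure_coe, Metric.mem_closure_iff] at hf
  rw [Metric.cauchySeq_iff']
  intro ε hε
  obtain ⟨g, hg, hfg⟩ := hf (ε / 3) (by positivity)
  obtain ⟨N, hN⟩ := Metric.cauchySeq_iff'.1 (hspan g hg) (ε / 3) (by positivity)
  have hd : ∀ M, dist (∫ x, f x * ((partialProd lam a φ M x : ℝ) : ℂ) ∂m)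
      (∫ x, g x * ((partialProd lam a φ M x : ℝ) : ℂ) ∂m) ≤ dist f g := by
    intro M
    have i1 : Integrable (fun x => f x * ((partialProd lam a φ M x : ℝ) : ℂ)) m :=
      ex_integrable (f.continuous.mul (hPc M))
    have i2 : Integrable (fun x => g x * ((partialProd lam a φ M x : ℝ) : ℂ)) m :=
      ex_integrable (g.continuous.mul (hPc M))
    rw [dist_eq_norm, ← integral_sub i1 i2]
    calc ‖∫ x, (f x * ((partialProd lam a φ M x : ℝ) : ℂ) -
          g x * ((partialProd lam a φ M x : ℝ) : ℂ)) ∂m‖
        ≤ ∫ x, dist f g * partialProd lam a φ M x ∂m := by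
          apply norm_integral_le_of_norm_le
          · exact ex_integrable (continuous_const.mul (ex_P_cont lam a φ M))
          · refine Eventually.of_forall fun x => ?_
            rw [← sub_mul, norm_mul, Complex.norm_real, Real.norm_eq_abs,
              abs_of_nonneg (ex_P_nonneg lam a φ ha M x)]
            apply mul_le_mul_of_nonneg_right _ (ex_P_nonneg lam a φ ha M x)
            rw [← dist_eq_norm]
            exact ContinuousMap.dist_apply_le_dist x
      _ = dist f g := by
          rw [integral_const_mul, ex_mass lam a φ h0 h3 M, mul_one]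
  refine ⟨N, fun n hn => ?_⟩
  have h4 := hN n hn
  have h5 := hd n
  have h6 := hd N
  have h7 := dist_triangle4 (∫ x, f x * ((partialProd lam a φ n x : ℝ) : ℂ) ∂m)
    (∫ x, g x * ((partialProd lam a φ n x : ℝ) : ℂ) ∂m)
    (∫ x, g x * ((partialProd lam a φ N x : ℝ) : ℂ) ∂m)
    (∫ x, f x * ((partialProd lam a φ N x : ℝ) : ℂ) ∂m)
  rw [dist_comm] at h6
  linarith

end

theorem exR : S_EX := by
  intro lam a φ h0 h3 ha
  set P : ℕ → T → ℝ := partialProd lam a φ with hP
  have hPc : ∀ N, Continuous (P N) := ex_P_cont lam a φ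
  have hP0 : ∀ N x, 0 ≤ P N x := ex_P_nonneg lam a φ ha
  have hP1 : ∀ N, ∫ x, P N x ∂m = 1 := ex_mass lam a φ h0 h3
  have hprob : ∀ N, IsProbabilityMeasure (m.withDensity fun x => ENNReal.ofReal (P N x)) := by
    intro N
    constructor
    rw [withDensity_apply _ MeasurableSet.univ, Measure.restrict_univ,
      ← ofReal_integral_eq_lintegral_ofReal (ex_integrable (hPc N))
        (Eventually.of_forall (hP0 N)), hP1, ENNReal.ofReal_one]
  let ν : ℕ → ProbabilityMeasure T := fun N => ⟨_, hprob N⟩
  have hν : ∀ N (f : C(T, ℝ)), ∫ x, f x ∂(ν N : Measure T) = ∫ x, f x * P N x ∂m := by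
    intro N f
    change ∫ x, f x ∂(m.withDensity fun x => ENNReal.ofReal (P N x)) = _
    rw [integral_withDensity_eq_integral_toReal_smul
      (f := fun x => ENNReal.ofReal (P N x)) (hPc N).measurable.ennreal_ofReal (by simp)]
    congr 1
    funext x
    rw [ENNReal.toReal_ofReal (hP0 N x), smul_eq_mul, mul_comm]
  let U : Ultrafilter ℕ := Filter.hyperfilter ℕ
  have hU : (U : Filter ℕ) ≤ atTop := Nat.hyperfilter_le_atTop
  let μ : ProbabilityMeasure T := (U.map ν).lim
  have hμ : Tendsto ν U (𝓝 μ) := (U.map ν).le_nhds_lim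
  refine ⟨(μ : Measure T), inferInstance, fun f => ?_⟩
  -- the sequence converges
  have h1 := ex_cauchy lam a φ h0 h3 ha ⟨fun x => ((f x : ℝ) : ℂ), by fun_prop⟩
  obtain ⟨L, hL⟩ := cauchySeq_tendsto_of_complete h1
  have h2 : Tendsto (fun N => ∫ x, f x * P N x ∂m) atTop (𝓝 L.re) := by
    have h3 := (Complex.continuous_re.tendsto L).comp hL
    refine h3.congr fun N => ?_
    simp only [Function.comp_apply, ContinuousMap.coe_mk]
    have e1 : ∀ x, ((f x : ℝ) : ℂ) * ((partialProd lam a φ N x : ℝ) : ℂ) =
        ((f x * P N x : ℝ) : ℂ) := fun x => by push_cast; rfl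
    simp_rw [e1]
    rw [integral_complex_ofReal, Complex.ofReal_re]
  have h4 : Tendsto (fun N => ∫ x, f x * P N x ∂m) U (𝓝 (∫ x, f x ∂(μ : Measure T))) := by
    have h5 := ProbabilityMeasure.tendsto_iff_forall_integral_tendsto.1 hμ
      (BoundedContinuousFunction.mkOfCompact f)
    refine h5.congr fun N => ?_
    rw [← hν]
    rfl
  have h6 := tendsto_nhds_unique (h2.mono_left hU) h4
  rw [← h6]
  exact h2

end Pool.Agent.N218.RZ
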