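import Pool.Agent.N218.RZ.Defs

set_option autoImplicit false

open MeasureTheory Filter Topology

namespace Pool.Agent.N218.RZ

theorem fa_e_add (i j : ℤ) (x : T) : e (i + j) x = e i x * e j x := by
  unfold e
  exact fourier_add

theorem fa_e_smul (j : ℤ) (L : ℕ) (x : T) : e j (L • x) = e (j * L) x := by
  unfold e
  rw [fourier_apply, fourier_apply, mul_smul, natCast_zsmul]

theorem fa_e_zero (x : T) : e 0 x = 1 := by
  unfold e
  exact fourier_zero

theorem fa_e_cont (j : ℤ) : Continuous (e j) := (fourier j).continuous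

theorem fa_e_neg (j : ℤ) (x : T) : e (-j) x = (starRingEnd ℂ) (e j x) := by
  unfold e
  exact fourier_neg

theorem fa_int_e (n : ℤ) : ∫ x, e n x ∂m = if n = 0 then 1 else 0 := by
  split_ifs with h
  · subst h
    simp only [fa_e_zero]
    simp
  · exact integral_eq_zero_of_add_right_eq_neg (μ := (m : Measure T))
      (fourier_add_half_inv_index h Real.two_pi_pos)

theorem fa_e_mem (j : ℤ) (D : ℕ) (h : |j| ≤ (D : ℤ)) : e j ∈ TP D :=
  Submodule.subset_span ⟨j, h, rfl⟩

theorem fa_mono (D E : ℕ) (h : D ≤ E) : TP D ≤ TP E := by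
  refine Submodule.span_mono ?_
  rintro f ⟨j, hj, rfl⟩
  exact ⟨j, hj.trans (by exact_mod_cast h), rfl⟩

theorem fa_ind {D : ℕ} {P : (T → ℂ) → Prop} (h0 : ∀ j : ℤ, |j| ≤ (D : ℤ) → P (e j))
    (hz : P 0) (ha : ∀ f g, f ∈ TP D → g ∈ TP D → P f → P g → P (f + g))
    (hs : ∀ (c : ℂ) (f), f ∈ TP D → P f → P (c • f)) (f : T → ℂ) (hf : f ∈ TP D) : P f := by
  refine Submodule.span_induction (p := fun f _ => P f) ?_ hz ?_ ?_ hf
  · rintro f ⟨j, hj, rfl⟩
    exact h0 j hj
  · intro f g hf hg h1 h2
    exact ha f g hf hg h1 h2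
  · intro c f hf h1
    exact hs c f hf h1

theorem fa_mul (D E : ℕ) (f g : T → ℂ) (hf : f ∈ TP D) (hg : g ∈ TP E) :
    (fun x => f x * g x) ∈ TP (D + E) := by
  refine fa_ind (P := fun f => (fun x => f x * g x) ∈ TP (D + E)) ?_ ?_ ?_ ?_ f hf
  · intro i hi
    refine fa_ind (P := fun g => (fun x => e i x * g x) ∈ TP (D + E)) ?_ ?_ ?_ ?_ g hg
    · intro j hj
      have h : (fun x => e i x * e j x) = e (i + j) := by
        funext x
        exact (fa_e_add i j x).symm
      rw [h]
      refine fa_e_mem _ _ ?_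
      push_cast
      exact (abs_add_le i j).trans (add_le_add hi hj)
    · have h : (fun x => e i x * (0 : T → ℂ) x) = 0 := by
        funext x
        simp
      rw [h]
      exact Submodule.zero_mem _
    · intro g g' _ _ h1 h2
      have h : (fun x => e i x * (g + g') x) = (fun x => e i x * g x) + fun x => e i x * g' x := by
        funext x
        simp only [Pi.add_apply]
        ring
      rw [h]
      exact Submodule.add_mem _ h1 h2
    · intro c g _ h1
      have h : (fun x => e i x * (c • g) x) = c • fun x => e i x * g x := by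
        funext x
        simp only [Pi.smul_apply, smul_eq_mul]
        ring
      rw [h]
      exact Submodule.smul_mem _ _ h1
  · have h : (fun x => (0 : T → ℂ) x * g x) = 0 := by
      funext x
      simp
    rw [h]
    exact Submodule.zero_mem _
  · intro f f' _ _ h1 h2
    have h : (fun x => (f + f') x * g x) = (fun x => f x * g x) + fun x => f' x * g x := by
      funext x
      simp only [Pi.add_apply]
      ring
    rw [h]
    exact Submodule.add_mem _ h1 h2
  · intro c f _ h1
    have h : (fun x => (c • f) x * g x) = c • fun x => f x * g x := by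
      funext x
      simp only [Pi.smul_apply, smul_eq_mul]
      ring
    rw [h]
    exact Submodule.smul_mem _ _ h1

theorem fa_const (c : ℂ) : (fun _ : T => c) ∈ TP 0 := by
  have h : (fun _ : T => c) = c • e 0 := by
    funext x
    simp only [Pi.smul_apply, smul_eq_mul, fa_e_zero, mul_one]
  rw [h]
  exact Submodule.smul_mem _ _ (fa_e_mem 0 0 (by simp))

theorem fa_cont (D : ℕ) (f : T → ℂ) (hf : f ∈ TP D) : Continuous f := by
  refine fa_ind (P := fun f => Continuous f) (fun j _ => fa_e_cont j) continuous_const ?_ ?_ f hf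
  · intro f g _ _ h1 h2
    exact h1.add h2
  · intro c f _ h1
    exact h1.const_smul c

theorem fa_re (j : ℤ) (x : T) : (((e j x).re : ℝ) : ℂ) = (1 / 2 : ℂ) * (e j x + e (-j) x) := by
  rw [fa_e_neg, Complex.add_conj]
  push_cast
  ring

theorem fa_re_mem (j : ℕ) : (fun x => (((e (j : ℤ) x).re : ℝ) : ℂ)) ∈ TP j := by
  have h : (fun x => (((e (j : ℤ) x).re : ℝ) : ℂ)) = (1 / 2 : ℂ) • (e (j : ℤ) + e (-(j : ℤ))) := by
    funext x
    rw [fa_re]
    rfl
  rw [h]
  refine Submodule.smul_mem _ _ (Submodule.add_mem _ (fa_e_mem _ _ ?_) (fa_e_mem _ _ ?_))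
  · simp
  · simp

theorem fa_dil (D : ℕ) (f : T → ℂ) (hf : f ∈ TP D) (L : ℕ) :
    (fun x => f (L • x)) ∈ TP (D * L) := by
  refine fa_ind (P := fun f => (fun x => f (L • x)) ∈ TP (D * L)) ?_ ?_ ?_ ?_ f hf
  · intro j hj
    have h : (fun x => e j (L • x)) = e (j * L) := by
      funext x
      exact fa_e_smul j L x
    rw [h]
    refine fa_e_mem _ _ ?_
    rw [abs_mul]
    push_cast
    rw [Nat.abs_cast]
    exact mul_le_mul_of_nonneg_right hj (by positivity)
  · exact Submodule.zero_mem _
  · intro f g _ _ h1 h2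
    exact Submodule.add_mem _ h1 h2
  · intro c f _ h1
    exact Submodule.smul_mem _ c h1

/-- the closure properties -/
theorem tpmR : S_TPM :=
  ⟨fa_mono, fa_mul, fa_const, fa_cont, fa_re_mem 1, fa_re_mem 3, fa_dil⟩

theorem fa_integrable (f : T → ℂ) (hf : Continuous f) : Integrable f m :=
  hf.integrable_of_hasCompactSupport (HasCompactSupport.of_compactSpace f)

theorem fa_two (D' D L : ℕ) (hL : D' < L) (A p : T → ℂ) (hA : A ∈ TP D') (hp : p ∈ TP D) :
    ∫ x, A x * p (L • x) ∂m = (∫ x, A x ∂m) * ∫ x, p x ∂m := by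
  refine fa_ind (P := fun A => ∫ x, A x * p (L • x) ∂m = (∫ x, A x ∂m) * ∫ x, p x ∂m)
    ?_ ?_ ?_ ?_ A hA
  · intro i hi
    refine fa_ind (P := fun p => ∫ x, e i x * p (L • x) ∂m = (∫ x, e i x ∂m) * ∫ x, p x ∂m)
      ?_ ?_ ?_ ?_ p hp
    · intro j _
      have h : (fun x => e i x * e j (L • x)) = e (i + j * L) := by
        funext x
        rw [fa_e_smul, fa_e_add]
      rw [h, fa_int_e, fa_int_e, fa_int_e]
      have key : i + j * L = 0 ↔ i = 0 ∧ j = 0 := by
        constructor
        · intro h0
          by_cases hj : j = 0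
          · subst hj
            simpa using h0
          · exfalso
            have h1 : |i| = |j| * L := by
              have : i = -(j * L) := by linarith
              rw [this, abs_neg, abs_mul, Nat.abs_cast]
            have h2 : 1 ≤ |j| := Int.one_le_abs hj
            have h3 : (L : ℤ) ≤ |j| * L := by nlinarith
            have h4 : (D' : ℤ) < L := by exact_mod_cast hL
            linarith
        · rintro ⟨rfl, rfl⟩
          simp
      rw [if_congr key rfl rfl]
      by_cases hi0 : i = 0 <;> by_cases hj0 : j = 0 <;> simp [hi0, hj0]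
    · simp
    · intro p q hp hq h1 h2
      have c1 := fa_cont _ _ (fa_dil _ _ hp L)
      have c2 := fa_cont _ _ (fa_dil _ _ hq L)
      have e1 : ∫ x, e i x * (p + q) (L • x) ∂m =
          (∫ x, e i x * p (L • x) ∂m) + ∫ x, e i x * q (L • x) ∂m := by
        have i1 : Integrable (fun x => e i x * p (L • x)) m :=
          fa_integrable _ ((fa_e_cont i).mul c1)
        have i2 : Integrable (fun x => e i x * q (L • x)) m :=
          fa_integrable _ ((fa_e_cont i).mul c2)
        rw [← integral_add i1 i2]
        refine integral_congr_ae (Eventually.of_forall fun x => ?_)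
        simp only [Pi.add_apply]
        ring
      have e2 : ∫ x, (p + q) x ∂m = (∫ x, p x ∂m) + ∫ x, q x ∂m :=
        integral_add (fa_integrable _ (fa_cont _ _ hp)) (fa_integrable _ (fa_cont _ _ hq))
      rw [e1, e2, h1, h2]
      ring
    · intro c p _ h1
      have e1 : ∫ x, e i x * (c • p) (L • x) ∂m = c * ∫ x, e i x * p (L • x) ∂m := by
        rw [← integral_const_mul]
        refine integral_congr_ae (Eventually.of_forall fun x => ?_)
        simp only [Pi.smul_apply, smul_eq_mul]
        ring
      have e2 : ∫ x, (c • p) x ∂m = c * ∫ x, p x ∂m := by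
        rw [← integral_const_mul]
        rfl
      rw [e1, e2, h1]
      ring
  · simp
  · intro A B hA hB h1 h2
    have c1 := fa_cont _ _ (fa_dil _ _ hp L)
    have e1 : ∫ x, (A + B) x * p (L • x) ∂m =
        (∫ x, A x * p (L • x) ∂m) + ∫ x, B x * p (L • x) ∂m := by
      have i1 : Integrable (fun x => A x * p (L • x)) m :=
        fa_integrable _ ((fa_cont _ _ hA).mul c1)
      have i2 : Integrable (fun x => B x * p (L • x)) m :=
        fa_integrable _ ((fa_cont _ _ hB).mul c1)
      rw [← integral_add i1 i2]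
      refine integral_congr_ae (Eventually.of_forall fun x => ?_)
      simp only [Pi.add_apply]
      ring
    have e2 : ∫ x, (A + B) x ∂m = (∫ x, A x ∂m) + ∫ x, B x ∂m :=
      integral_add (fa_integrable _ (fa_cont _ _ hA)) (fa_integrable _ (fa_cont _ _ hB))
    rw [e1, e2, h1, h2]
    ring
  · intro c A _ h1
    have e1 : ∫ x, (c • A) x * p (L • x) ∂m = c * ∫ x, A x * p (L • x) ∂m := by
      rw [← integral_const_mul]
      refine integral_congr_ae (Eventually.of_forall fun x => ?_)
      simp only [Pi.smul_apply, smul_eq_mul]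
      ring
    have e2 : ∫ x, (c • A) x ∂m = c * ∫ x, A x ∂m := by
      rw [← integral_const_mul]
      rfl
    rw [e1, e2, h1]
    ring

theorem fa_prod (D Λ : ℕ → ℕ) (q : ℕ → T → ℂ) (hq : ∀ k, q k ∈ TP (D k)) (M : ℕ) :
    (fun x => ∏ k ∈ Finset.range M, q k (Λ k • x)) ∈ TP (∑ k ∈ Finset.range M, D k * Λ k) := by
  induction M with
  | zero =>
    simp only [Finset.range_zero, Finset.prod_empty, Finset.sum_empty]
    exact fa_const 1
  | succ M ih =>
    simp only [Finset.prod_range_succ, Finset.sum_range_succ]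
    exact fa_mul _ _ _ _ ih (fa_dil _ _ (hq M) (Λ M))

/-- the factorisation -/
theorem factR : S_FACT := by
  intro D Λ q hq hΛ M
  induction M with
  | zero => simp
  | succ M ih =>
    rw [Finset.prod_range_succ, ← ih]
    simp only [Finset.prod_range_succ]
    exact fa_two _ _ _ (hΛ M) _ _ (fa_prod D Λ q hq M) (hq M)

end Pool.Agent.N218.RZ
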