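import Pool.Agent.N218.RZ.Defs

/-!
# Moments of the test function
-/

set_option autoImplicit false

open MeasureTheory Filter Topology

namespace Pool.Agent.N218.RZ

private lemma mo_cs (t : ℝ) : cs (t : T) = Real.cos t := by
  unfold cs e
  rw [fourier_coe_apply]
  have h : 2 * (Real.pi : ℂ) * Complex.I * ((1 : ℤ) : ℂ) * (t : ℂ) / ((2 * Real.pi : ℝ) : ℂ) =
      (t : ℂ) * Complex.I := by
    have hp : (Real.pi : ℂ) ≠ 0 := Complex.ofReal_ne_zero.2 Real.pi_ne_zero
    push_cast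
    field_simp
  rw [h, Complex.exp_ofReal_mul_I_re]

private lemma mo_cs3' (t : ℝ) : cs3 (t : T) = Real.cos (3 * t) := by
  unfold cs3 e
  rw [fourier_coe_apply]
  have h : 2 * (Real.pi : ℂ) * Complex.I * ((3 : ℤ) : ℂ) * (t : ℂ) / ((2 * Real.pi : ℝ) : ℂ) =
      ((3 * t : ℝ) : ℂ) * Complex.I := by
    have hp : (Real.pi : ℂ) ≠ 0 := Complex.ofReal_ne_zero.2 Real.pi_ne_zero
    push_cast
    field_simp
  rw [h, Complex.exp_ofReal_mul_I_re]

private lemma mo_b (x : T) : -1 ≤ cs x ∧ cs x ≤ 1 ∧ cs3 x = 4 * cs x ^ 3 - 3 * cs x ∧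
    -1 ≤ cs3 x ∧ cs3 x ≤ 1 := by
  induction x using QuotientAddGroup.induction_on with
  | H t =>
    have h1 : cs ((t : ℝ) : T) = Real.cos t := mo_cs t
    have h2 : cs3 ((t : ℝ) : T) = Real.cos (3 * t) := mo_cs3' t
    change -1 ≤ cs ((t : ℝ) : T) ∧ cs ((t : ℝ) : T) ≤ 1 ∧
      cs3 ((t : ℝ) : T) = 4 * cs ((t : ℝ) : T) ^ 3 - 3 * cs ((t : ℝ) : T) ∧
      -1 ≤ cs3 ((t : ℝ) : T) ∧ cs3 ((t : ℝ) : T) ≤ 1
    rw [h1, h2]
    exact ⟨Real.neg_one_le_cos t, Real.cos_le_one t, Real.cos_three_mul t,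
      Real.neg_one_le_cos _, Real.cos_le_one _⟩

private lemma mo_cont : Continuous cs :=
  Complex.continuous_re.comp (fourier (1 : ℤ)).continuous

private lemma mo_cont3 : Continuous cs3 :=
  Complex.continuous_re.comp (fourier (3 : ℤ)).continuous

private lemma mo_conty : Continuous yy := (continuous_const.sub mo_cont).div_const _

private lemma mo_int {f : T → ℝ} (h : Continuous f) : Integrable f m :=
  h.integrable_of_hasCompactSupport (HasCompactSupport.of_compactSpace f)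

private lemma mo_C (n : ℕ) :
    ∫ x, yy x ^ n ∂m = ∏ i ∈ Finset.range n, (2 * (i : ℝ) + 1) / (2 * i + 2) := by
  rw [AddCircle.integral_haarAddCircle, ← AddCircle.intervalIntegral_preimage (2 * Real.pi) 0]
  have h1 : ∀ a : ℝ, yy ((a : ℝ) : T) ^ n = Real.sin (a / 2) ^ (2 * n) := by
    intro a
    rw [pow_mul]
    congr 1
    unfold yy
    rw [mo_cs, Real.sin_sq_eq_half_sub]
    ring_nf
  simp_rw [h1]
  rw [intervalIntegral.integral_comp_div (fun t => Real.sin t ^ (2 * n)) (two_ne_zero),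
    zero_div, zero_add, mul_div_cancel_left₀ _ (two_ne_zero), integral_sin_pow_even]
  have hp : Real.pi ≠ 0 := Real.pi_ne_zero
  simp only [smul_eq_mul]
  field_simp

private lemma mo_rec (n : ℕ) :
    (∫ x, yy x ^ (n + 1) ∂m) * (2 * n + 2) = (∫ x, yy x ^ n ∂m) * (2 * n + 1) := by
  rw [mo_C, mo_C, Finset.prod_range_succ]
  have : (2 * (n : ℝ) + 2) ≠ 0 := by positivity
  field_simp

private lemma mo_pos (n : ℕ) : 0 < ∫ x, yy x ^ n ∂m := by
  rw [mo_C]
  exact Finset.prod_pos fun i _ => by positivity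

private lemma mo_low (n : ℕ) : 1 / (4 * ((n : ℝ) + 1)) ≤ (∫ x, yy x ^ (n + 1) ∂m) ^ 2 := by
  induction n with
  | zero =>
    rw [mo_C]
    norm_num
  | succ n ih =>
    have h := mo_rec (n + 1)
    have h1 := mo_pos (n + 1)
    set A := ∫ x, yy x ^ (n + 1) ∂m
    set B := ∫ x, yy x ^ (n + 1 + 1) ∂m
    push_cast at h ⊢
    have hn : (0 : ℝ) ≤ n := Nat.cast_nonneg n
    have hB : B = A * (2 * ((n : ℝ) + 1) + 1) / (2 * ((n : ℝ) + 1) + 2) := by
      rw [eq_div_iff (by positivity)]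
      exact h
    rw [hB, div_pow, mul_pow]
    rw [div_le_iff₀ (by positivity)] at ih
    rw [div_le_div_iff₀ (by positivity) (by positivity)]
    have h3 : 0 ≤ A ^ 2 := sq_nonneg A
    have h4 : 1 ≤ A ^ 2 * (4 * ((n : ℝ) + 1)) := ih
    nlinarith [mul_nonneg h3 hn]

theorem momR : S_MOM := by
  intro d hd
  have hd0 : (0 : ℝ) < d := by exact_mod_cast (by omega : 0 < d)
  have hd64 : (64 : ℝ) ≤ d := by exact_mod_cast hd
  have hC := mo_pos d
  have hrec := mo_rec d
  refine ⟨?_, ?_, ?_⟩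
  · obtain ⟨n, rfl⟩ : ∃ n, d = n + 1 := ⟨d - 1, by omega⟩
    have h1 := mo_low n
    set A := ∫ x, yy x ^ (n + 1) ∂m
    have h2 : 1 / (2 * √((n + 1 : ℕ) : ℝ)) = √(1 / (4 * ((n : ℝ) + 1))) := by
      rw [Real.sqrt_div (by norm_num), Real.sqrt_one, Real.sqrt_mul (by norm_num)]
      push_cast
      congr 2
      rw [show (4 : ℝ) = 2 ^ 2 by norm_num, Real.sqrt_sq (by norm_num)]
    rw [h2, Real.sqrt_le_left hC.le]
    exact h1
  · -- the difference
    have i0 : Integrable (fun x => yy x ^ d) m := mo_int (mo_conty.pow d)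
    have i1 : Integrable (fun x => yy x ^ (d + 1)) m := mo_int (mo_conty.pow (d + 1))
    have ib : ∀ a c : ℝ, Integrable (fun x => yy x ^ d * blk (-1) a c x) m := fun a c =>
      mo_int ((mo_conty.pow d).mul ((continuous_const.add (continuous_const.mul mo_cont)).mul
        (continuous_const.add (continuous_const.mul mo_cont3))))
    rw [← integral_sub (ib _ _) (ib _ _)]
    have hle : ∫ x, (1 / (d : ℝ)) * (20 * yy x ^ (d + 1) - 19 * yy x ^ d) ∂m ≤
        ∫ x, (yy x ^ d * blk (-1) (1 - 2 / d) (1 - 1 / d) x -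
          yy x ^ d * blk (-1) (1 - 1 / d) (1 - 1 / d) x) ∂m := by
      refine integral_mono (((i1.const_mul 20).sub (i0.const_mul 19)).const_mul _)
        ((ib _ _).sub (ib _ _)) fun x => ?_
      obtain ⟨b1, b2, b3, b4, b5⟩ := mo_b x
      have hc0 : (0 : ℝ) ≤ 1 - 1 / (d : ℝ) := by
        rw [sub_nonneg, div_le_one hd0]
        linarith
      have hc1 : 1 - 1 / (d : ℝ) ≤ 1 := by
        have : 0 < 1 / (d : ℝ) := by positivity
        linarith
      have hdd : (0 : ℝ) < 1 / (d : ℝ) := by positivity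
      have hy : 0 ≤ yy x := by
        unfold yy
        linarith
      have hyd : 0 ≤ yy x ^ d := pow_nonneg hy d
      have key : 1 - 20 * ((1 + cs x) / 2) ≤ -cs x * (1 - (1 - 1 / (d : ℝ)) * cs3 x) := by
        set c := 1 - 1 / (d : ℝ)
        have k1 : c * cs3 x ≤ 1 := by nlinarith
        have k2 : -1 ≤ c * cs3 x := by nlinarith
        rcases le_or_gt 0 (cs x) with h | h
        · nlinarith
        · rcases le_or_gt (1 / 20) ((1 + cs x) / 2) with h' | h'
          · have : 0 ≤ -cs x * (1 - c * cs3 x) := mul_nonneg (by linarith) (by linarith)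
            linarith
          · have k3 : cs3 x ≤ 0 := by
              rw [b3]
              have h2 : cs x ≤ -9 / 10 := by linarith
              have h3 : 81 / 100 ≤ cs x ^ 2 := by nlinarith
              nlinarith
            have k4 : c * cs3 x ≤ 0 := by nlinarith
            nlinarith
      have e1 : yy x ^ d * blk (-1) (1 - 2 / d) (1 - 1 / d) x -
          yy x ^ d * blk (-1) (1 - 1 / d) (1 - 1 / d) x =
          (1 / (d : ℝ)) * (yy x ^ d * (-cs x * (1 - (1 - 1 / (d : ℝ)) * cs3 x))) := by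
        unfold blk
        ring
      have e2 : (1 / (d : ℝ)) * (20 * yy x ^ (d + 1) - 19 * yy x ^ d) =
          (1 / (d : ℝ)) * (yy x ^ d * (1 - 20 * ((1 + cs x) / 2))) := by
        rw [pow_succ]
        unfold yy
        ring
      show (1 / (d : ℝ)) * (20 * yy x ^ (d + 1) - 19 * yy x ^ d) ≤
        yy x ^ d * blk (-1) (1 - 2 / d) (1 - 1 / d) x -
          yy x ^ d * blk (-1) (1 - 1 / d) (1 - 1 / d) x
      rw [e1, e2]
      exact mul_le_mul_of_nonneg_left (mul_le_mul_of_nonneg_left key hyd) hdd.le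
    refine le_trans ?_ hle
    rw [integral_const_mul, integral_sub (i1.const_mul 20) (i0.const_mul 19), integral_const_mul,
      integral_const_mul]
    set A := ∫ x, yy x ^ d ∂m
    set B := ∫ x, yy x ^ (d + 1) ∂m
    have h1 : A / 2 ≤ 20 * B - 19 * A := by nlinarith
    have h2 : (0 : ℝ) < 1 / (d : ℝ) := by positivity
    calc 1 / (d : ℝ) * A / 2 = 1 / (d : ℝ) * (A / 2) := by ring
      _ ≤ _ := mul_le_mul_of_nonneg_left h1 h2.le
  · intro a ha
    have i0 : Integrable (fun x => yy x ^ (2 * d)) m := mo_int (mo_conty.pow _)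
    have i1 : Integrable (fun x => yy x ^ (2 * d + 1)) m := mo_int (mo_conty.pow _)
    have ib : Integrable (fun x => (yy x ^ d) ^ 2 * blk (-1) a (1 - 1 / d) x) m :=
      mo_int (((mo_conty.pow d).pow 2).mul
        ((continuous_const.add (continuous_const.mul mo_cont)).mul
        (continuous_const.add (continuous_const.mul mo_cont3))))
    have hdd : (0 : ℝ) < 1 / (d : ℝ) := by positivity
    have hdd1 : 1 / (d : ℝ) ≤ 1 / 64 := by
      rw [div_le_div_iff₀ hd0 (by norm_num)]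
      linarith
    have hdd2 : 2 / (d : ℝ) = 2 * (1 / (d : ℝ)) := by ring
    have ha0 : 0 ≤ a ∧ a ≤ 1 ∧ 1 - a ≤ 2 * (1 / (d : ℝ)) := by
      rcases ha with h | h
      · rw [h]
        refine ⟨by linarith, by linarith, by linarith⟩
      · rw [h, hdd2]
        refine ⟨by linarith, by linarith, by linarith⟩
    obtain ⟨ha1, ha2, ha3⟩ := ha0
    have hle : ∫ x, (yy x ^ d) ^ 2 * blk (-1) a (1 - 1 / d) x ∂m ≤
        ∫ x, ((4 * (1 / (d : ℝ)) + 4) * yy x ^ (2 * d) - 4 * yy x ^ (2 * d + 1)) ∂m := by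
      refine integral_mono ib ((i0.const_mul _).sub (i1.const_mul _)) fun x => ?_
      obtain ⟨b1, b2, b3, b4, b5⟩ := mo_b x
      have hc0 : (0 : ℝ) ≤ 1 - 1 / (d : ℝ) := by linarith
      have hy : 0 ≤ yy x := by
        unfold yy
        linarith
      have hyd : 0 ≤ yy x ^ (2 * d) := pow_nonneg hy _
      have k1 : (1 - 1 / (d : ℝ)) * cs3 x ≤ 1 := by nlinarith
      have k2 : -1 ≤ (1 - 1 / (d : ℝ)) * cs3 x := by nlinarith
      have k3 : 0 ≤ 1 + a * cs x := by nlinarith
      have k4 : 1 + a * cs x ≤ 2 * (1 / (d : ℝ)) + 2 * ((1 + cs x) / 2) := by nlinarith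
      have key : blk (-1) a (1 - 1 / d) x ≤ 4 * (1 / (d : ℝ)) + 4 * ((1 + cs x) / 2) := by
        unfold blk
        calc (1 + a * cs x) * (1 + -1 * (1 - 1 / (d : ℝ)) * cs3 x) ≤ (1 + a * cs x) * 2 :=
              mul_le_mul_of_nonneg_left (by linarith) k3
          _ ≤ _ := by linarith
      have e2 : (4 * (1 / (d : ℝ)) + 4) * yy x ^ (2 * d) - 4 * yy x ^ (2 * d + 1) =
          yy x ^ (2 * d) * (4 * (1 / (d : ℝ)) + 4 * ((1 + cs x) / 2)) := by
        rw [pow_succ]
        unfold yy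
        ring
      show (yy x ^ d) ^ 2 * blk (-1) a (1 - 1 / d) x ≤
        (4 * (1 / (d : ℝ)) + 4) * yy x ^ (2 * d) - 4 * yy x ^ (2 * d + 1)
      rw [e2, ← pow_mul, mul_comm d 2]
      exact mul_le_mul_of_nonneg_left key hyd
    refine hle.trans ?_
    rw [integral_sub (i0.const_mul _) (i1.const_mul _), integral_const_mul, integral_const_mul]
    have hr := mo_rec (2 * d)
    have hmono : ∫ x, yy x ^ (2 * d) ∂m ≤ ∫ x, yy x ^ d ∂m := by
      refine integral_mono i0 (mo_int (mo_conty.pow d)) fun x => ?_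
      obtain ⟨b1, b2, -⟩ := mo_b x
      refine pow_le_pow_of_le_one ?_ ?_ (by omega)
      · unfold yy
        linarith
      · unfold yy
        linarith
    have hA := mo_pos (2 * d)
    set A := ∫ x, yy x ^ (2 * d) ∂m
    set B := ∫ x, yy x ^ (2 * d + 1) ∂m
    push_cast at hr
    have h1 : A - B = A / (4 * d + 2) := by
      rw [eq_div_iff (by positivity)]
      linarith
    have h2 : 4 * (A / (4 * (d : ℝ) + 2)) ≤ 1 / (d : ℝ) * A := by
      rw [← mul_div_assoc, div_le_iff₀ (by positivity)]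
      have : 1 / (d : ℝ) * A * (4 * d + 2) = 4 * A + 2 * (1 / (d : ℝ)) * A := by
        field_simp
      rw [this]
      have : 0 < 2 * (1 / (d : ℝ)) * A := by positivity
      linarith
    calc (4 * (1 / (d : ℝ)) + 4) * A - 4 * B = 4 * (1 / (d : ℝ)) * A + 4 * (A - B) := by ring
      _ ≤ 4 * (1 / (d : ℝ)) * A + 1 / (d : ℝ) * A := by
        rw [h1]
        linarith
      _ = 5 / d * A := by ring
      _ ≤ 5 / d * ∫ x, yy x ^ d ∂m := mul_le_mul_of_nonneg_left hmono (by positivity)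

end Pool.Agent.N218.RZ
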