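import Pool.Agent.N218.RZ.Defs

/-!
# Riesz products (MP_b30265_an): three short lemmas
-/

set_option autoImplicit false

open MeasureTheory Filter Topology

namespace Pool.Agent.N218.RZ

/-! ### Chebyshev and Borel-Cantelli -/

private lemma sa_markov (μ : Measure T) [IsFiniteMeasure μ] {X : T → ℝ} (hX : Continuous X)
    (p : ℝ) {t α : ℝ} (ht : 0 < t) (h : (∫ x, (X x - p) ^ 2 ∂μ) ≤ α * (2 * t) ^ 2)
    {s : Set T} (hs : ∀ x ∈ s, t ^ 2 ≤ (X x - p) ^ 2) : μ.real s ≤ 4 * α := by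
  have hc : Continuous fun x => (X x - p) ^ 2 := by fun_prop
  have h1 := mul_meas_ge_le_integral_of_nonneg (μ := μ) (f := fun x => (X x - p) ^ 2)
    (Filter.Eventually.of_forall fun x => sq_nonneg _)
    (hc.integrable_of_hasCompactSupport (HasCompactSupport.of_compactSpace _)) (t ^ 2)
  have h2 : μ.real s ≤ μ.real {x | t ^ 2 ≤ (X x - p) ^ 2} :=
    measureReal_mono (fun x hx => hs x hx)
  have h3 : 0 < t ^ 2 := by positivity
  have h4 : t ^ 2 * μ.real s ≤ t ^ 2 * (4 * α) := by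
    calc t ^ 2 * μ.real s ≤ t ^ 2 * μ.real {x | t ^ 2 ≤ (X x - p) ^ 2} :=
          mul_le_mul_of_nonneg_left h2 h3.le
      _ ≤ _ := h1
      _ ≤ _ := h
      _ = _ := by ring
  exact le_of_mul_le_mul_left h4 h3

private lemma sa_bc (μ : Measure T) [IsFiniteMeasure μ] {s : ℕ → Set T} {α : ℕ → ℝ}
    (hα : Summable α) (h : ∀ j, μ.real (s j) ≤ 4 * α j) : μ (limsup s atTop) = 0 := by
  apply measure_limsup_atTop_eq_zero
  have h0 : ∀ j, 0 ≤ 4 * α j := fun j => measureReal_nonneg.trans (h j)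
  have h1 : ∀ j, μ (s j) ≤ ENNReal.ofReal (4 * α j) := by
    intro j
    rw [← ENNReal.ofReal_toReal (measure_ne_top μ (s j))]
    exact ENNReal.ofReal_le_ofReal (h j)
  refine ne_top_of_le_ne_top ?_ (ENNReal.tsum_le_tsum h1)
  rw [← ENNReal.ofReal_tsum_of_nonneg h0 (hα.mul_left 4)]
  exact ENNReal.ofReal_ne_top

theorem singR : S_SING := by
  intro μ ν _ _ X p q α hX hpq hα hμ hν
  set E : ℕ → Set T := fun j => {x | X j x < (p j + q j) / 2} with hE
  have h1 : μ (limsup (fun j => (E j)ᶜ) atTop) = 0 := by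
    refine sa_bc μ hα fun j => ?_
    refine sa_markov μ (hX j) (p j) (t := (q j - p j) / 2) (by linarith [hpq j]) ?_ ?_
    · rw [show 2 * ((q j - p j) / 2) = q j - p j by ring]
      exact hμ j
    · intro x hx
      have h2 : (p j + q j) / 2 ≤ X j x := not_lt.1 hx
      have h3 := hpq j
      exact pow_le_pow_left₀ (by linarith) (by linarith) 2
  have h2 : ν (limsup E atTop) = 0 := by
    refine sa_bc ν hα fun j => ?_
    refine sa_markov ν (hX j) (q j) (t := (q j - p j) / 2) (by linarith [hpq j]) ?_ ?_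
    · rw [show 2 * ((q j - p j) / 2) = q j - p j by ring]
      exact hν j
    · intro x hx
      have h2 : X j x < (p j + q j) / 2 := hx
      have h3 := hpq j
      rw [← neg_sq (X j x - q j)]
      exact pow_le_pow_left₀ (by linarith) (by linarith) 2
  refine Measure.MutuallySingular.mk h1 h2 ?_
  intro x _
  by_cases hx : ∃ᶠ j in atTop, x ∈ E j
  · exact Or.inr (mem_limsup_iff_frequently_mem.2 hx)
  · left
    rw [mem_limsup_iff_frequently_mem]
    rw [not_frequently] at hx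
    exact hx.frequently

/-! ### The aligned case -/

private lemma sa_norm (x : T) : (e 1 x).re ^ 2 + (e 1 x).im ^ 2 = 1 := by
  have h1 : ‖e 1 x‖ = 1 := by
    unfold e
    rw [fourier_apply]
    exact Circle.norm_coe _
  have h2 := Complex.sq_norm (e 1 x)
  rw [h1, Complex.normSq_apply] at h2
  linarith

private lemma sa_cs3 (x : T) : cs3 x = 4 * cs x ^ 3 - 3 * cs x := by
  have h1 : e 3 x = e 1 x * e 1 x * e 1 x := by
    unfold e
    rw [show (3 : ℤ) = 1 + 1 + 1 by norm_num, fourier_add, fourier_add]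
  have h2 := sa_norm x
  unfold cs3 cs
  rw [h1]
  simp only [Complex.mul_re, Complex.mul_im]
  linear_combination (-(e 1 x).re * 3) * h2

private lemma sa_real (a b c s t : ℝ) (hb : 1 / 2 ≤ b) (hbc : b ≤ c) (hc : c < 1)
    (hs1 : -1 ≤ s) (hs2 : s ≤ 1) (ht : t = 4 * s ^ 3 - 3 * s) :
    ((1 + a * s) * (1 + 1 * c * t)) ^ 2 / ((1 + b * s) * (1 + 1 * c * t)) ≤
      (1 + b * s) * (1 + 1 * c * t) + 2 * ((1 + a * s) * (1 + 1 * c * t) -
        (1 + b * s) * (1 + 1 * c * t)) + 18 * (a - b) ^ 2 := by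
  have h1 : 1 + t = (1 + s) * (2 * s - 1) ^ 2 := by rw [ht]; ring
  have h2 : 0 ≤ 1 + t := by rw [h1]; exact mul_nonneg (by linarith) (sq_nonneg _)
  have h3 : 1 + t ≤ 9 * (1 + s) := by
    rw [h1, mul_comm]
    exact mul_le_mul_of_nonneg_right (by nlinarith) (by linarith)
  have h4 : 0 < 1 + b * s := by nlinarith
  have h5 : 0 < 1 + 1 * c * t := by nlinarith
  have h6 : 1 + 1 * c * t ≤ 18 * (1 + b * s) := by nlinarith
  have h7 : s ^ 2 ≤ 1 := by nlinarith
  have h8 : s ^ 2 * (1 + 1 * c * t) ≤ 18 * (1 + b * s) := by nlinarith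
  rw [div_le_iff₀ (mul_pos h4 h5)]
  have h9 : ((1 + b * s) * (1 + 1 * c * t) + 2 * ((1 + a * s) * (1 + 1 * c * t) -
        (1 + b * s) * (1 + 1 * c * t)) + 18 * (a - b) ^ 2) * ((1 + b * s) * (1 + 1 * c * t)) -
      ((1 + a * s) * (1 + 1 * c * t)) ^ 2 =
      (a - b) ^ 2 * (1 + 1 * c * t) * (18 * (1 + b * s) - s ^ 2 * (1 + 1 * c * t)) := by ring
  have h10 : 0 ≤ (a - b) ^ 2 * (1 + 1 * c * t) * (18 * (1 + b * s) - s ^ 2 * (1 + 1 * c * t)) :=
    mul_nonneg (mul_nonneg (sq_nonneg _) h5.le) (by linarith)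
  linarith

theorem aliR : S_ALI := by
  intro a b c x hb hbc hc
  unfold blk
  have h1 := sa_norm x
  have h2 : cs x ^ 2 ≤ 1 := by
    unfold cs
    nlinarith [sq_nonneg (e 1 x).im]
  have h3 := abs_le_one_iff_mul_self_le_one.2 (by rw [← sq]; exact h2 : cs x * cs x ≤ 1)
  exact sa_real a b c (cs x) (cs3 x) hb hbc hc (abs_le.1 h3).1 (abs_le.1 h3).2 (sa_cs3 x)

/-! ### The sums over the blocks -/

private lemma sa_dd (k : ℕ) : (1 / (dd k : ℝ)) ^ 2 ≤ 1 / ((k + 1 : ℕ) : ℝ) ^ (6 / 5 : ℝ) := by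
  unfold dd
  set L := Nat.log 1024 k with hL
  have h1 : k + 1 ≤ 1024 ^ (L + 1) := Nat.lt_pow_succ_log_self (by norm_num) k
  have h2 : ((k + 1 : ℕ) : ℝ) ≤ (1024 : ℝ) ^ (L + 1) := by exact_mod_cast h1
  have h3 : ((1024 : ℝ) ^ (L + 1)) ^ (6 / 5 : ℝ) = (4096 : ℝ) ^ (L + 1) := by
    rw [show (1024 : ℝ) = 2 ^ 10 by norm_num, show (4096 : ℝ) = 2 ^ 12 by norm_num, ← pow_mul,
      ← pow_mul, ← Real.rpow_natCast 2 (10 * (L + 1)), ← Real.rpow_mul (by norm_num),
      ← Real.rpow_natCast 2 (12 * (L + 1))]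
    congr 1
    push_cast
    ring
  have h4 : (1 / ((64 ^ (L + 1) : ℕ) : ℝ)) ^ 2 = 1 / (4096 : ℝ) ^ (L + 1) := by
    rw [div_pow, one_pow]
    push_cast
    rw [← pow_mul, mul_comm (L + 1) 2, pow_mul]
    norm_num
  rw [h4, ← h3]
  have h5 : (0 : ℝ) < ((k + 1 : ℕ) : ℝ) := by positivity
  exact one_div_le_one_div_of_le (Real.rpow_pos_of_pos h5 _)
    (Real.rpow_le_rpow h5.le h2 (by norm_num))

theorem perR : S_PER := by
  refine ⟨?_, ?_, ?_⟩
  · have h1 : Summable (fun k : ℕ => 1 / (k : ℝ) ^ (6 / 5 : ℝ)) :=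
      Real.summable_one_div_nat_rpow.2 (by norm_num)
    have h2 := (summable_nat_add_iff 1).2 h1
    refine ⟨∑' k : ℕ, 1 / ((k + 1 : ℕ) : ℝ) ^ (6 / 5 : ℝ), fun K => ?_⟩
    refine (Finset.sum_le_sum fun k _ => sa_dd k).trans ?_
    exact h2.sum_le_tsum _ fun k _ => by positivity
  · intro j k hk
    rw [Finset.mem_Ico] at hk
    unfold dd
    rw [Nat.log_eq_of_pow_le_of_lt_pow hk.1 hk.2]
  · have h1 : (fun j : ℕ => 160 * ((64 : ℝ) ^ (j + 1) * 8 ^ (j + 1)) / (1023 * 1024 ^ j)) =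
        fun j : ℕ => (160 * 512 / 1023) * (1 / 2 : ℝ) ^ j := by
      funext j
      rw [← mul_pow, show (64 : ℝ) * 8 = 512 by norm_num, pow_succ,
        show (1024 : ℝ) = 512 * 2 by norm_num, mul_pow, div_pow, one_pow]
      have h1 : (512 : ℝ) ^ j ≠ 0 := by positivity
      have h2 : (2 : ℝ) ^ j ≠ 0 := by positivity
      field_simp
    rw [h1]
    exact summable_geometric_two.mul_left _

end Pool.Agent.N218.RZ
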