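import Pool.Agent.N218.RZ.Asm3
import Pool.Agent.N218.RZ.AC
import Pool.Agent.N218.RZ.FACT
import Pool.Agent.N218.RZ.MOM
import Pool.Agent.N218.RZ.SAP

set_option autoImplicit false

open MeasureTheory Filter Topology

namespace Pool.Agent.N218.RZ

lemma ddR (k : ℕ) : (64 : ℝ) ≤ dd k := by exact_mod_cast dd_pos k

lemma ca0 (k : ℕ) : ca (2 * k) = ((1 - 1 / (dd k : ℝ) : ℝ) : ℂ) := by
  unfold ca
  rw [show 2 * k / 2 = k by omega]

lemma ca1 (k : ℕ) : ca (2 * k + 1) = ((1 - 1 / (dd k : ℝ) : ℝ) : ℂ) := by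
  unfold ca
  rw [show (2 * k + 1) / 2 = k by omega]

lemma cb0 (k : ℕ) : cb (2 * k) = ((1 - 2 / (dd k : ℝ) : ℝ) : ℂ) := by
  unfold cb
  rw [if_pos (by omega), show 2 * k / 2 = k by omega]

lemma cb1 (k : ℕ) : cb (2 * k + 1) = ((1 - 1 / (dd k : ℝ) : ℝ) : ℂ) := by
  unfold cb
  rw [if_neg (by omega), show (2 * k + 1) / 2 = k by omega]

lemma ph0 (k : ℕ) : ph (2 * k) = 0 := by simp [ph]

lemma ph1 (k : ℕ) : Complex.exp (ph (2 * k + 1) * Complex.I) = ((-1 : ℝ) : ℂ) := by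
  have : ph (2 * k + 1) = Real.pi := by
    unfold ph
    rw [if_neg (by omega)]
  rw [this, Complex.exp_pi_mul_I]
  simp

lemma z1 (k : ℕ) : Complex.exp (((fun _ : ℕ => (0:ℝ)) (2 * k + 1) : ℝ) * Complex.I) =
    ((1 : ℝ) : ℂ) := by simp

lemma inv_le (k : ℕ) : 1 / (dd k : ℝ) ≤ 1 / 64 := one_div_le_one_div_of_le (by norm_num) (ddR k)
lemma inv_pos' (k : ℕ) : 0 < 1 / (dd k : ℝ) := by have := ddR k; positivity
lemma two_div' (k : ℕ) : 2 / (dd k : ℝ) = 2 * (1 / (dd k : ℝ)) := by ring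

lemma ca_lt (n : ℕ) : ‖ca n‖ < 1 := by
  unfold ca
  rw [Complex.norm_real, Real.norm_eq_abs, abs_lt]
  have := inv_le (n / 2)
  have := inv_pos' (n / 2)
  constructor <;> linarith

lemma cb_lt (n : ℕ) : ‖cb n‖ < 1 := by
  have := inv_le (n / 2)
  have := inv_pos' (n / 2)
  have := two_div' (n / 2)
  unfold cb
  split_ifs
  · rw [Complex.norm_real, Real.norm_eq_abs, abs_lt]
    constructor <;> linarith
  · rw [Complex.norm_real, Real.norm_eq_abs, abs_lt]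
    constructor <;> linarith

lemma lam_growth (n : ℕ) : 3 * lam n ≤ lam (n + 1) := by
  rcases Nat.even_or_odd' n with ⟨k, rfl | rfl⟩
  · unfold lam
    rw [if_pos (by omega), if_neg (by omega), show 2 * k / 2 = k by omega,
      show (2 * k + 1) / 2 = k by omega]
  · unfold lam
    rw [if_neg (by omega), if_pos (by omega), show (2 * k + 1) / 2 = k by omega,
      show (2 * k + 1 + 1) / 2 = k + 1 by omega]
    simp only [LL]
    have := dd_pos k
    nlinarith [LL_pos k]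

lemma lam_pos : 0 < lam 0 := by simp [lam, LL]

/-- the aligned products are equivalent -/
theorem main_ac {μ ν : Measure T} (hμ : IsRiesz lam ca (fun _ => 0) μ)
    (hν : IsRiesz lam cb (fun _ => 0) ν) : μ ≪ ν ∧ ν ≪ μ := by
  obtain ⟨C, hC⟩ := perR.1
  have e1 : ∀ k, (1 - 1 / (dd k : ℝ) - (1 - 2 / (dd k : ℝ))) ^ 2 = (1 / (dd k : ℝ)) ^ 2 := by
    intro k; ring
  have e2 : ∀ k, (1 - 2 / (dd k : ℝ) - (1 - 1 / (dd k : ℝ))) ^ 2 = (1 / (dd k : ℝ)) ^ 2 := by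
    intro k; ring
  constructor
  · exact ac_aligned tpmR factR acR aliR ca0 ca1 cb0 cb1 (fun _ => rfl) z1
      (fun k => by have := inv_le k; have := two_div' k; linarith)
      (fun k => by have := inv_pos' k; have := two_div' k; linarith)
      (fun k => by have := inv_pos' k; linarith)
      (C := C) (fun K => by simp_rw [e1]; exact hC K) hμ hν
  · exact ac_aligned tpmR factR acR aliR cb0 cb1 ca0 ca1 (fun _ => rfl) z1
      (fun k => by have := inv_le k; linarith)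
      (fun k => le_refl _)
      (fun k => by have := inv_pos' k; linarith)
      (C := C) (fun K => by simp_rw [e2]; exact hC K) hν hμ

/-- the products with opposite zeros are mutually singular -/
theorem main_sing {μ ν : Measure T} (hμ : IsRiesz lam ca ph μ) (hν : IsRiesz lam cb ph ν) :
    μ ⟂ₘ ν := by
  have pμ : IsProbabilityMeasure μ := prob tpmR factR ca0 ca1 ph0 ph1 hμ
  have pν : IsProbabilityMeasure ν := prob tpmR factR cb0 cb1 ph0 ph1 hν
  obtain ⟨-, hdd, hsum⟩ := perR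
  set B : ℕ → Finset ℕ := fun j => Finset.Ico (1024 ^ j) (1024 ^ (j + 1)) with hB
  set d : ℕ → ℕ := fun j => 64 ^ (j + 1) with hd
  have hdR : ∀ j, ((d j : ℕ) : ℝ) = 64 ^ (j + 1) := fun j => by simp [hd]
  have hd64 : ∀ j, 64 ≤ d j := fun j => by
    calc 64 = 64 ^ 1 := by norm_num
      _ ≤ 64 ^ (j + 1) := Nat.pow_le_pow_right (by norm_num) (by omega)
  have hcard : ∀ j, ((B j).card : ℝ) = 1023 * 1024 ^ j := by
    intro j
    simp only [hB, Nat.card_Ico]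
    have : 1024 ^ (j + 1) - 1024 ^ j = 1023 * 1024 ^ j := by rw [pow_succ]; omega
    rw [this]
    push_cast
    ring
  set Ma : ℕ → ℝ := fun j => ∫ x, yy x ^ d j * blk (-1) (1 - 1 / d j) (1 - 1 / d j) x ∂m with hMa
  set Mb : ℕ → ℝ := fun j => ∫ x, yy x ^ d j * blk (-1) (1 - 2 / d j) (1 - 1 / d j) x ∂m with hMb
  set Cd : ℕ → ℝ := fun j => ∫ x, yy x ^ d j ∂m with hCd
  have hsq : ∀ j, √((d j : ℕ) : ℝ) = 8 ^ (j + 1) := by
    intro j
    rw [hdR, show (64:ℝ) ^ (j + 1) = (8 ^ (j + 1)) ^ 2 by rw [← pow_mul, mul_comm, pow_mul]; norm_num]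
    exact Real.sqrt_sq (by positivity)
  have hmom := fun j => momR (d j) (hd64 j)
  have hC1 : ∀ j, 1 / (2 * 8 ^ (j + 1)) ≤ Cd j := fun j => by
    have := (hmom j).1
    rwa [hsq] at this
  have hgap : ∀ j, 1 / ((d j : ℕ) : ℝ) * Cd j / 2 ≤ Mb j - Ma j := fun j => (hmom j).2.1
  have hCpos : ∀ j, 0 < Cd j := fun j => lt_of_lt_of_le (by positivity) (hC1 j)
  have hdpos : ∀ j, (0:ℝ) < ((d j : ℕ) : ℝ) := fun j => by rw [hdR]; positivity
  have hgpos : ∀ j, 0 < 1 / ((d j : ℕ) : ℝ) * Cd j / 2 := fun j => by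
    have := hdpos j; have := hCpos j; positivity
  have hNpos : ∀ j, (0:ℝ) < (B j).card := fun j => by rw [hcard]; positivity
  have hbound : ∀ j (V : ℝ), V ≤ 5 / ((d j : ℕ) : ℝ) * Cd j → ((B j).card : ℝ) * V ≤
      (160 * ((64 : ℝ) ^ (j + 1) * 8 ^ (j + 1)) / (1023 * 1024 ^ j)) *
        (((B j).card : ℝ) * Mb j - (B j).card * Ma j) ^ 2 := by
    intro j V hV
    rw [← hcard j, ← hdR j]
    have hN := hNpos j
    have hD := hdpos j
    have hC := hCpos j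
    have hc1 := hC1 j
    have hg := hgap j
    set N : ℝ := ((B j).card : ℝ)
    set D : ℝ := ((d j : ℕ) : ℝ)
    set c := Cd j
    set E : ℝ := 8 ^ (j + 1) with hE
    have hEp : 0 < E := by positivity
    have h1 : N * V ≤ N * (5 / D * c) := mul_le_mul_of_nonneg_left hV hN.le
    have h2 : (N * (1 / D * c / 2)) ^ 2 ≤ (N * Mb j - N * Ma j) ^ 2 := by
      rw [← mul_sub]
      exact pow_le_pow_left₀ (by positivity) (mul_le_mul_of_nonneg_left hg hN.le) 2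
    have h3 : N * (5 / D * c) ≤ 160 * (D * E) / N * (N * (1 / D * c / 2)) ^ 2 := by
      have e : 160 * (D * E) / N * (N * (1 / D * c / 2)) ^ 2 = N * (5 / D * c) * (8 * E * c) := by
        field_simp
        ring
      rw [e]
      have : 1 ≤ 8 * E * c := by
        have : 1 / (2 * E) * (8 * E) ≤ c * (8 * E) := mul_le_mul_of_nonneg_right hc1 (by positivity)
        have e2 : 1 / (2 * E) * (8 * E) = 4 := by field_simp; norm_num
        nlinarith
      have hp : 0 ≤ N * (5 / D * c) := by positivity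
      nlinarith
    calc N * V ≤ N * (5 / D * c) := h1
      _ ≤ 160 * (D * E) / N * (N * (1 / D * c / 2)) ^ 2 := h3
      _ ≤ 160 * (D * E) / N * (N * Mb j - N * Ma j) ^ 2 :=
        mul_le_mul_of_nonneg_left h2 (by positivity)
  refine singR μ ν pμ pν (fun j x => ∑ k ∈ B j, yy (LL k • x) ^ d j)
    (fun j => (B j).card * Ma j) (fun j => (B j).card * Mb j)
    (fun j : ℕ => 160 * ((64 : ℝ) ^ (j + 1) * 8 ^ (j + 1)) / (1023 * 1024 ^ j)) ?_ ?_ hsum ?_ ?_
  · intro j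
    exact continuous_finsetSum _ fun k _ => (yy_cont.comp (continuous_const_smul (LL k))).pow _
  · intro j
    have := hgap j
    have := hgpos j
    exact mul_lt_mul_of_pos_left (by linarith) (hNpos j)
  · intro j
    have h := var_le tpmR factR ca0 ca1 ph0 ph1 hμ (B j) (d j) (1 - 1 / d j) (1 - 1 / d j)
      (fun k hk => by rw [hdd j k hk]) (fun k hk => by rw [hdd j k hk]) (fun k hk => hdd j k hk)
    exact h.trans (hbound j _ ((hmom j).2.2 _ (Or.inl rfl)))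
  · intro j
    have h := var_le tpmR factR cb0 cb1 ph0 ph1 hν (B j) (d j) (1 - 2 / d j) (1 - 1 / d j)
      (fun k hk => by rw [hdd j k hk]) (fun k hk => by rw [hdd j k hk]) (fun k hk => hdd j k hk)
    exact h.trans (hbound j _ ((hmom j).2.2 _ (Or.inr rfl)))

/-- main theorem from the existence statement -/
theorem main (hEX : S_EX) : ∃ (lam : ℕ → ℕ) (a b : ℕ → ℂ) (φ : ℕ → ℝ) (μa μb μa' μb' : Measure T),
    0 < lam 0 ∧ (∀ n, 3 * lam n ≤ lam (n + 1)) ∧ (∀ n, ‖a n‖ < 1) ∧ (∀ n, ‖b n‖ < 1) ∧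
    IsRiesz lam a (fun _ => 0) μa ∧ IsRiesz lam b (fun _ => 0) μb ∧
    IsRiesz lam a φ μa' ∧ IsRiesz lam b φ μb' ∧
    μa ≪ μb ∧ μb ≪ μa ∧ μa' ⟂ₘ μb' := by
  obtain ⟨μa, h1⟩ := hEX lam ca (fun _ => 0) lam_pos lam_growth fun n => (ca_lt n).le
  obtain ⟨μb, h2⟩ := hEX lam cb (fun _ => 0) lam_pos lam_growth fun n => (cb_lt n).le
  obtain ⟨μa', h3⟩ := hEX lam ca ph lam_pos lam_growth fun n => (ca_lt n).le
  obtain ⟨μb', h4⟩ := hEX lam cb ph lam_pos lam_growth fun n => (cb_lt n).le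
  exact ⟨lam, ca, cb, ph, μa, μb, μa', μb', lam_pos, lam_growth, ca_lt, cb_lt, h1, h2, h3, h4,
    (main_ac h1 h2).1, (main_ac h1 h2).2, main_sing h3 h4⟩

/-- main theorem with more information -/
theorem main2 (hEX : S_EX) : ∃ (lam : ℕ → ℕ) (a b : ℕ → ℂ) (φ : ℕ → ℝ)
    (μa μb μa' μb' : Measure T),
    0 < lam 0 ∧ (∀ n, 3 * lam n ≤ lam (n + 1)) ∧ (∀ n, ‖a n‖ < 1) ∧ (∀ n, ‖b n‖ < 1) ∧
    (∀ n, φ n = 0 ∨ φ n = Real.pi) ∧
    IsRiesz lam a (fun _ => 0) μa ∧ IsRiesz lam b (fun _ => 0) μb ∧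
    IsRiesz lam a φ μa' ∧ IsRiesz lam b φ μb' ∧
    IsProbabilityMeasure μa' ∧ IsProbabilityMeasure μb' ∧
    μa ≪ μb ∧ μb ≪ μa ∧ μa' ⟂ₘ μb' := by
  obtain ⟨μa, h1⟩ := hEX lam ca (fun _ => 0) lam_pos lam_growth fun n => (ca_lt n).le
  obtain ⟨μb, h2⟩ := hEX lam cb (fun _ => 0) lam_pos lam_growth fun n => (cb_lt n).le
  obtain ⟨μa', h3⟩ := hEX lam ca ph lam_pos lam_growth fun n => (ca_lt n).le
  obtain ⟨μb', h4⟩ := hEX lam cb ph lam_pos lam_growth fun n => (cb_lt n).le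
  refine ⟨lam, ca, cb, ph, μa, μb, μa', μb', lam_pos, lam_growth, ca_lt, cb_lt, fun n => ?_, h1, h2,
    h3, h4, prob tpmR factR ca0 ca1 ph0 ph1 h3, prob tpmR factR cb0 cb1 ph0 ph1 h4,
    (main_ac h1 h2).1, (main_ac h1 h2).2, main_sing h3 h4⟩
  unfold ph
  split_ifs <;> simp

end Pool.Agent.N218.RZ
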